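import Pool.Agent.Lib.MP_cccab4_an.TM.IC

set_option autoImplicit false

/-!
# CC: renormalised sequences are conical at the image point

`k j ∘ f ∘ h' j → ψ` uniformly, `ψ` continuous and injective, `h j` conical at `x` (limits `a ≠ b`). Claim: `k j` is conical at `f x`
with limits `ψ a ≠ ψ b`.
(1) `k j (f x) = (k j ∘ f ∘ h' j) (h j x) → ψ a` (uniform convergence, `ψ` continuous, `h j x → a`:
`TendstoUniformly.tendsto_comp`, or the triangle inequality). For `y ≠ x`: `k j (f y) = (k j ∘ f ∘ h' j) (h j y) → ψ b`.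
(2) Let `y' ≠ f x`. Suppose `k j y'` does not converge to `ψ b`: a subsequence converges to `q ≠ ψ b` (compactness). Take `y ≠ x` with
`f y ≠ y'` (`h3` gives three points, `f` injective), `c ∉ {a, b}`, `v_j = f (h' j c) → f x` (`inv_con`, `f` continuous),
`k j v_j → ψ c`. `cr v_j (f x) y' (f y) → 0` (numerator `d(v_j, f x) d(y', f y) → 0`, denominator
`→ d(f x, y') d(f x, f y) > 0`), so by `qm_zero` the image cross-ratio tends to `0`; but its numerator tends to
`d(ψ c, ψ a) d(q, ψ b) > 0` and its denominator is `≤ D²`: contradiction.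
-/

open MeasureTheory Metric Set Filter Topology
open scoped ENNReal NNReal

namespace QSCoh

variable {X : Type*} [MetricSpace X]

theorem con_comp [CompactSpace X] {θ₀ : ℝ → ℝ} (hθ : Gauge θ₀) (h3 : ∀ p q : X, ∃ y, y ≠ p ∧ y ≠ q)
    {h h' k : ℕ → X → X} (hh : ∀ j, QM θ₀ (h j)) (hk : ∀ j, QM θ₀ (k j)) (e1 : ∀ j u, h j (h' j u) = u)
    (e2 : ∀ j u, h' j (h j u) = u) {f ψ : X → X} (hf : Continuous f) (hfi : Function.Injective f)
    (hψ : Continuous ψ) (hψi : Function.Injective ψ)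
    (hlim : TendstoUniformly (fun j => k j ∘ f ∘ h' j) ψ atTop) {x : X} (hc : Con x h) :
    Con (f x) k := by
  obtain ⟨a, b, hab, ha, hb⟩ := hc
  have key : ∀ u w : X, Tendsto (fun j => h j u) atTop (𝓝 w) →
      Tendsto (fun j => k j (f u)) atTop (𝓝 (ψ w)) := by
    intro u w hu
    have h1 := hlim.tendsto_comp (g := fun j => h j u) hψ.continuousAt hu
    refine h1.congr fun j => ?_
    show k j (f (h' j (h j u))) = k j (f u)
    rw [e2]
  refine ⟨ψ a, ψ b, fun h => hab (hψi h), key x a ha, fun y' hy' => ?_⟩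
  by_cases hr : ∃ y₀, f y₀ = y'
  · obtain ⟨y₀, rfl⟩ := hr
    exact key y₀ b (hb y₀ fun h => hy' (by rw [h]))
  push Not at hr
  obtain ⟨y, hyx, -⟩ := h3 x x
  obtain ⟨c, hca, hcb⟩ := h3 a b
  have hv : Tendsto (fun j => f (h' j c)) atTop (𝓝 (f x)) :=
    (hf.tendsto x).comp (inv_con hθ h3 hh e1 e2 hab ha hb hca hcb)
  have hkv : Tendsto (fun j => k j (f (h' j c))) atTop (𝓝 (ψ c)) :=
    hlim.tendsto_comp (g := fun _ => c) hψ.continuousAt tendsto_const_nhds
  have hkx := key x a ha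
  have hky := key y b (hb y hyx)
  have hfxy : f x ≠ f y := fun h => hyx (hfi h).symm
  have hcr : Tendsto (fun j => cr (f (h' j c)) (f x) y' (f y)) atTop (𝓝 0) := by
    have h1 : Tendsto (fun j => cr (f (h' j c)) (f x) y' (f y)) atTop (𝓝 (cr (f x) (f x) y' (f y))) := by
      unfold cr
      refine Tendsto.div ((hv.dist tendsto_const_nhds).mul tendsto_const_nhds)
        ((hv.dist tendsto_const_nhds).mul tendsto_const_nhds) ?_
      exact mul_ne_zero (dist_ne_zero.2 hy'.symm) (dist_ne_zero.2 hfxy)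
    have h2 : cr (f x) (f x) y' (f y) = 0 := by simp [cr]
    rwa [h2] at h1
  have hz := qm_zero hθ hk (A := fun j => f (h' j c)) (B := fun _ => f x) (C := fun _ => y')
    (D := fun _ => f y) (fun j => hr _) (fun _ => hfxy) hcr
  refine tendsto_of_subseq_tendsto fun ns hns => ?_
  obtain ⟨q, φ, hφ, hq⟩ := CompactSpace.tendsto_subseq fun n => k (ns n) y'
  refine ⟨φ, ?_⟩
  have hN : Tendsto (fun n => ns (φ n)) atTop atTop := hns.comp hφ.tendsto_atTop
  have hqb : q = ψ b := by
    by_contra hne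
    have t1 := hkv.comp hN
    have t2 := hkx.comp hN
    have t3 := hky.comp hN
    have t4 := hz.comp hN
    have n1 := (t1.dist t2).mul (Tendsto.dist hq t3)
    have d1 := (t1.dist hq).mul (t2.dist t3)
    have m1 := t4.mul d1
    rw [zero_mul] at m1
    have e : ∀ n : ℕ, dist (k (ns (φ n)) (f (h' (ns (φ n)) c))) (k (ns (φ n)) (f x)) *
        dist (k (ns (φ n)) y') (k (ns (φ n)) (f y)) =
        cr (k (ns (φ n)) (f (h' (ns (φ n)) c))) (k (ns (φ n)) (f x)) (k (ns (φ n)) y')
          (k (ns (φ n)) (f y)) * (dist (k (ns (φ n)) (f (h' (ns (φ n)) c))) (k (ns (φ n)) y') *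
          dist (k (ns (φ n)) (f x)) (k (ns (φ n)) (f y))) := by
      intro n
      unfold cr
      rw [div_mul_cancel₀]
      exact mul_ne_zero (dist_ne_zero.2 fun h => hr _ ((hk _).inj h))
        (dist_ne_zero.2 fun h => hfxy ((hk _).inj h))
    have m2 : Tendsto (fun n : ℕ => dist (k (ns (φ n)) (f (h' (ns (φ n)) c))) (k (ns (φ n)) (f x)) *
        dist (k (ns (φ n)) y') (k (ns (φ n)) (f y))) atTop (𝓝 0) := m1.congr fun n => (e n).symm
    have h0 := tendsto_nhds_unique n1 m2
    rcases mul_eq_zero.1 h0 with h5 | h5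
    · exact hca (hψi (dist_eq_zero.1 h5))
    · exact hne (dist_eq_zero.1 h5)
  rw [← hqb]
  exact hq

end QSCoh
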