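import Pool.Agent.Lib.MP_cccab4_an.TM.CC
import Pool.Agent.Lib.MP_cccab4_an.A03
import Pool.Agent.Lib.MP_cccab4_an.A05
import Pool.Agent.Lib.MP_cccab4_an.A07

set_option autoImplicit false

/-!
# CH: the chain rule for tangent maps

`a j ∘ (f ∘ g) ∘ h' j → φ`. Fix distinct `p₁, p₂, p₃` (`h3`). `k j ∈ G` from `K.co` for `g (h' j p₁), ..` (distinct: `g`, `h' j` injective), `k' j` from
`K.inv`. `M j = k j ∘ g ∘ h' j` is `QM (θ₀ ∘ θg ∘ θ₀)` (`qm_comp`, `G_qm K`), maps the fixed triple to a `δ`-separated one: `qm_equi`, `extract`,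
`qm_lower` (as in T02b `approx`): a subsequence converges uniformly to `ψ`, continuous and injective. `N j = a j ∘ f ∘ k' j` maps the `δ`-separated triple
`M j pᵢ` to `a j (f (g (h' j pᵢ))) → φ pᵢ`, distinct, so (for large `j`; shift the subsequence) `δ₁`-separated with a fixed `δ₁`: apply
the same with `min δ δ₁`: a further subsequence converges uniformly to `χ`, continuous and injective. `N j ∘ M j → χ ∘ ψ` pointwise, so `φ = χ ∘ ψ`.
`φ` surjective gives `χ` surjective, then `ψ = χ⁻¹ ∘ φ` surjective. `Tan G g x ψ` (sequences `k, h, h'` along the subsequence; `Con` passes to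
subsequences) and `Tan G f (g x) χ` (sequences `a, k, k'`; `Con (g x) k` by `con_comp`).
-/

open MeasureTheory Metric Set Filter Topology
open scoped ENNReal NNReal

namespace QSCoh

variable {X : Type*} [MetricSpace X]

private theorem ch_G [CompactSpace X] {G : Set (X → X)} {δ : ℝ} {θ₀ : ℝ → ℝ} (K : Sg X G G δ θ₀) {h : X → X} (hh : h ∈ G) : QM θ₀ h := by
  letI : MeasurableSpace X := borel X
  haveI : BorelSpace X := ⟨rfl⟩
  exact (G_qm K hh).1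

private theorem ch_sep {δ δ' : ℝ} (h : δ' ≤ δ) {a b c : X} (hs : Sep δ a b c) : Sep δ' a b c :=
  ⟨h.trans hs.1, h.trans hs.2.1, h.trans hs.2.2⟩

private theorem ch_con {x : X} {h : ℕ → X → X} (hc : Con x h) {s : ℕ → ℕ} (hs : Tendsto s atTop atTop) :
    Con x (fun j => h (s j)) := by
  obtain ⟨a, b, hab, h1, h2⟩ := hc
  exact ⟨a, b, hab, h1.comp hs, fun y hy => (h2 y hy).comp hs⟩

private theorem ch_uni {F : ℕ → X → X} {f : X → X} (h : TendstoUniformly F f atTop) {s : ℕ → ℕ}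
    (hs : Tendsto s atTop atTop) : TendstoUniformly (fun j => F (s j)) f atTop :=
  fun u hu => hs.eventually (h u hu)

private theorem ch_lim [CompactSpace X] {Θ : ℝ → ℝ} (hΘ : Gauge Θ) {δ' : ℝ} (hδ : 0 < δ') (F : ℕ → X → X)
    (hq : ∀ j, QM Θ (F j)) (ht : ∀ j, ∃ a b c, Sep δ' a b c ∧ Sep δ' (F j a) (F j b) (F j c)) :
    ∃ φ : ℕ → ℕ, StrictMono φ ∧ ∃ f' : X → X, Continuous f' ∧ Function.Injective f' ∧
      TendstoUniformly (fun j => F (φ j)) f' atTop := by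
  obtain ⟨φ, hφ, f', hf'c, hlim⟩ := extract F (fun ε hε => by
    obtain ⟨τ, hτ, h1⟩ := qm_equi (Z := X) hΘ hδ hε
    exact ⟨τ, hτ, fun j a b hab => h1 (F j) (hq j) (ht j) a b hab⟩)
  refine ⟨φ, hφ, f', hf'c, ?_, hlim⟩
  intro a b hab
  by_contra hne
  obtain ⟨τ, hτ, h1⟩ := qm_lower (Z := X) hΘ hδ (ε := dist a b) (dist_pos.2 hne)
  have h2 : Tendsto (fun j => dist (F (φ j) a) (F (φ j) b)) atTop (𝓝 (dist (f' a) (f' b))) :=
    (hlim.tendsto_at a).dist (hlim.tendsto_at b)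
  have h3 : τ ≤ dist (f' a) (f' b) := ge_of_tendsto' h2 fun j => h1 (F (φ j)) (hq _) (ht _) a b le_rfl
  rw [hab, dist_self] at h3
  linarith

private theorem ch_pos {p₁ p₂ p₃ : X} (h12 : p₁ ≠ p₂) (h13 : p₁ ≠ p₃) (h23 : p₂ ≠ p₃) : ∃ δ₁ : ℝ, 0 < δ₁ ∧ Sep (2 * δ₁) p₁ p₂ p₃ := by
  refine ⟨min (dist p₁ p₂) (min (dist p₁ p₃) (dist p₂ p₃)) / 2, ?_, ?_⟩
  · have := lt_min (dist_pos.2 h12) (lt_min (dist_pos.2 h13) (dist_pos.2 h23))
    linarith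
  · rw [mul_div_cancel₀ _ (two_ne_zero)]
    exact ⟨min_le_left _ _, (min_le_right _ _).trans (min_le_left _ _), (min_le_right _ _).trans (min_le_right _ _)⟩

private theorem ch_ev {u₁ u₂ u₃ : ℕ → X} {q₁ q₂ q₃ : X} {δ₁ : ℝ} (hδ : 0 < δ₁) (hq : Sep (2 * δ₁) q₁ q₂ q₃)
    (h1 : Tendsto u₁ atTop (𝓝 q₁)) (h2 : Tendsto u₂ atTop (𝓝 q₂)) (h3 : Tendsto u₃ atTop (𝓝 q₃)) :
    ∀ᶠ j in atTop, Sep δ₁ (u₁ j) (u₂ j) (u₃ j) := by
  have e1 := (h1.dist h2).eventually_const_lt (show δ₁ < dist q₁ q₂ by linarith [hq.1])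
  have e2 := (h1.dist h3).eventually_const_lt (show δ₁ < dist q₁ q₃ by linarith [hq.2.1])
  have e3 := (h2.dist h3).eventually_const_lt (show δ₁ < dist q₂ q₃ by linarith [hq.2.2])
  filter_upwards [e1, e2, e3] with j a b c
  exact ⟨a.le, b.le, c.le⟩

theorem tan_chain [CompactSpace X] {G : Set (X → X)} {δ : ℝ} {θ₀ : ℝ → ℝ} (K : Sg X G G δ θ₀)
    (h3 : ∀ p q : X, ∃ y, y ≠ p ∧ y ≠ q) {f g : X → X} {θf θg : ℝ → ℝ} (hθf : Gauge θf) (hθg : Gauge θg)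
    (hf : QM θf f) (hg : QM θg g) (hfc : Continuous f) (hgc : Continuous g) {x : X} {φ : X → X}
    (hφ : Function.Bijective φ) (ht : Tan G (f ∘ g) x φ) :
    ∃ ψ χ : X → X, Function.Bijective ψ ∧ Continuous ψ ∧ Function.Bijective χ ∧ Continuous χ ∧
      Tan G g x ψ ∧ Tan G f (g x) χ ∧ φ = χ ∘ ψ := by
  obtain ⟨a, h, h', ha, hh, hh', e1, e2, hcon, hlim⟩ := ht
  obtain ⟨p₂, hp2, -⟩ := h3 x x
  obtain ⟨p₃, hp31, hp32⟩ := h3 x p₂
  have hgi : ∀ j, Function.Injective fun u => g (h' j u) := fun j =>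
    hg.inj.comp (ch_G K (hh' j)).inj
  choose k hk hks using fun j : ℕ => K.co (g (h' j x)) (g (h' j p₂)) (g (h' j p₃)) ((hgi j).ne hp2.symm)
    ((hgi j).ne hp31.symm) ((hgi j).ne hp32.symm)
  choose k' hk' e3 e4 using fun j : ℕ => K.inv (k j) (hk j)
  have e3' : ∀ j u, k j (k' j u) = u := fun j u => congrFun (e3 j) u
  have e4' : ∀ j u, k' j (k j u) = u := fun j u => congrFun (e4 j) u
  obtain ⟨δp, hδp, hsp⟩ := ch_pos hp2.symm hp31.symm hp32.symm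
  have hδ := K.hδ
  have hg1 : Gauge (fun t => θ₀ (θg (θ₀ t))) := gauge_comp (gauge_comp K.gauge hθg) K.gauge
  have hg2 : Gauge (fun t => θ₀ (θf (θ₀ t))) := gauge_comp (gauge_comp K.gauge hθf) K.gauge
  have hMq : ∀ j, QM (fun t => θ₀ (θg (θ₀ t))) (fun u => k j (g (h' j u))) := fun j =>
    qm_comp K.gauge (qm_comp hθg (ch_G K (hh' j)) hg) (ch_G K (hk j))
  have hNq : ∀ j, QM (fun t => θ₀ (θf (θ₀ t))) (fun u => a j (f (k' j u))) := fun j =>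
    qm_comp K.gauge (qm_comp hθf (ch_G K (hk' j)) hf) (ch_G K (ha j))
  obtain ⟨φ₁, hφ₁, ψ, hψc, hψi, hψ⟩ := ch_lim hg1 (lt_min hδ (by linarith : (0 : ℝ) < 2 * δp))
    (fun j u => k j (g (h' j u))) hMq (fun j => ⟨x, p₂, p₃, ch_sep (min_le_right _ _) hsp, ch_sep (min_le_left _ _) (hks j)⟩)
  have hNM : ∀ j u, a j (f (k' j (k j (g (h' j u))))) = a j (f (g (h' j u))) := fun j u => by rw [e4']
  have hpt : ∀ u, Tendsto (fun j => a j (f (g (h' j u)))) atTop (𝓝 (φ u)) := fun u => hlim.tendsto_at u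
  obtain ⟨δ₁, hδ₁, hs1⟩ := ch_pos (hφ.1.ne hp2.symm) (hφ.1.ne hp31.symm) (hφ.1.ne hp32.symm)
  obtain ⟨J, hJ⟩ := eventually_atTop.1 (ch_ev hδ₁ hs1 (hpt x) (hpt p₂) (hpt p₃))
  obtain ⟨φ₂, hφ₂, χ, hχc, hχi, hχ⟩ := ch_lim hg2 (lt_min hδ hδ₁)
    (fun j u => a (φ₁ (j + J)) (f (k' (φ₁ (j + J)) u))) (fun j => hNq _) (fun j => by
      refine ⟨_, _, _, ch_sep (min_le_left _ _) (hks (φ₁ (j + J))), ?_⟩
      simp only [e4']
      exact ch_sep (min_le_right _ _) (hJ _ ((Nat.le_add_left J j).trans (hφ₁.id_le _))))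
  have hs0 : Tendsto (fun j => φ₂ j + J) atTop atTop :=
    (tendsto_add_atTop_nat J).comp hφ₂.tendsto_atTop
  have hs : Tendsto (fun j => φ₁ (φ₂ j + J)) atTop atTop := hφ₁.tendsto_atTop.comp hs0
  have hψ' : TendstoUniformly (fun j u => k (φ₁ (φ₂ j + J)) (g (h' (φ₁ (φ₂ j + J)) u))) ψ atTop := ch_uni hψ hs0
  have heq : ∀ u, φ u = χ (ψ u) := by
    intro u
    have h4 : Tendsto (fun j => a (φ₁ (φ₂ j + J)) (f (k' (φ₁ (φ₂ j + J)) (k (φ₁ (φ₂ j + J)) (g (h' (φ₁ (φ₂ j + J)) u))))))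
        atTop (𝓝 (χ (ψ u))) := hχ.tendsto_comp hχc.continuousAt (hψ'.tendsto_at u)
    simp only [hNM] at h4
    exact tendsto_nhds_unique ((hpt u).comp hs) h4
  have hχs : Function.Surjective χ := by
    intro y
    obtain ⟨u, hu⟩ := hφ.2 y
    exact ⟨ψ u, by rw [← heq, hu]⟩
  have hψs : Function.Surjective ψ := by
    intro y
    obtain ⟨u, hu⟩ := hφ.2 (χ y)
    exact ⟨u, hχi (by rw [← heq, hu])⟩
  have hc2 : Con (g x) (fun j => k (φ₁ (φ₂ j + J))) :=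
    con_comp K.gauge h3 (h := fun j => h (φ₁ (φ₂ j + J))) (h' := fun j => h' (φ₁ (φ₂ j + J)))
      (fun j => (ch_G K (hh _))) (fun j => (ch_G K (hk _))) (fun j u => e1 _ u) (fun j u => e2 _ u)
      hgc hg.inj hψc hψi hψ' (ch_con hcon hs)
  refine ⟨ψ, χ, ⟨hψi, hψs⟩, hψc, ⟨hχi, hχs⟩, hχc, ?_, ?_, funext heq⟩
  · exact ⟨fun j => k (φ₁ (φ₂ j + J)), fun j => h (φ₁ (φ₂ j + J)), fun j => h' (φ₁ (φ₂ j + J)), fun j => hk _,
      fun j => hh _, fun j => hh' _, fun j u => e1 _ u, fun j u => e2 _ u, ch_con hcon hs, hψ'⟩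
  · exact ⟨fun j => a (φ₁ (φ₂ j + J)), fun j => k (φ₁ (φ₂ j + J)), fun j => k' (φ₁ (φ₂ j + J)), fun j => ha _,
      fun j => hk _, fun j => hk' _, fun j u => e3' _ u, fun j u => e4' _ u, hc2, hχ⟩

end QSCoh
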