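import Pool.Agent.Lib.MP_cccab4_an.TM.W0

set_option autoImplicit false

/-!
# IC: the inverses of a conical sequence contract to the point

`qm_zero`: `Gauge.small` (A08): `θ₀ t ≤ ε` for small `t ≥ 0`; `QM.le`; `0 ≤ cr`.
`inv_con`: if not, there is `e > 0` and a subsequence with `e ≤ dist (h' j c) x`; a further subsequence `w_j = h' j c → z`, `z ≠ x`. `y ∉ {x, z}`
(`h3`). `cr w_j z x y = d(w_j,z) d(x,y) / (d(w_j,x) d(z,y)) → 0` so by `qm_zero` `cr c (h_j z) (h_j x) (h_j y) → 0`; but
`d(c, h_j z) d(h_j x, h_j y) → d(c,b) d(a,b) > 0` and `d(c, h_j x) d(h_j z, h_j y) → 0`, `≤ ` bounded: the quotient is `≥` a positive constant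
(numerator `≥ m > 0`, denominator `≤ D²`, and positive since the points are distinct for large `j`; if the denominator is `0` argue with
`QM.inj`: `h_j x ≠ c` because `w_j ≠ x`, `h_j z ≠ h_j y`).
-/

open MeasureTheory Metric Set Filter Topology
open scoped ENNReal NNReal

namespace QSCoh

variable {X : Type*} [MetricSpace X]

theorem qm_zero {θ₀ : ℝ → ℝ} (hθ : Gauge θ₀) {k : ℕ → X → X} (hk : ∀ j, QM θ₀ (k j)) {A B C D : ℕ → X}
    (hAC : ∀ j, A j ≠ C j) (hBD : ∀ j, B j ≠ D j)
    (h : Tendsto (fun j => cr (A j) (B j) (C j) (D j)) atTop (𝓝 0)) :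
    Tendsto (fun j => cr (k j (A j)) (k j (B j)) (k j (C j)) (k j (D j))) atTop (𝓝 0) := by
  refine tendsto_order.2 ⟨fun r hr => Eventually.of_forall fun j => ?_, fun ε hε => ?_⟩
  · refine lt_of_lt_of_le hr ?_
    unfold cr
    positivity
  · obtain ⟨τ, hτ, hs⟩ := hθ.small hε
    filter_upwards [h.eventually_le_const hτ] with j hj
    exact lt_of_le_of_lt ((hk j).le _ _ _ _ (hAC j) (hBD j)) (hs _ hj)

theorem inv_con [CompactSpace X] {θ₀ : ℝ → ℝ} (hθ : Gauge θ₀) (h3 : ∀ p q : X, ∃ y, y ≠ p ∧ y ≠ q)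
    {h h' : ℕ → X → X} (hh : ∀ j, QM θ₀ (h j)) (e1 : ∀ j u, h j (h' j u) = u)
    (e2 : ∀ j u, h' j (h j u) = u) {x a b : X} (hab : a ≠ b)
    (ha : Tendsto (fun j => h j x) atTop (𝓝 a)) (hb : ∀ y, y ≠ x → Tendsto (fun j => h j y) atTop (𝓝 b))
    {c : X} (hca : c ≠ a) (hcb : c ≠ b) : Tendsto (fun j => h' j c) atTop (𝓝 x) := by
  refine tendsto_of_subseq_tendsto fun ns hns => ?_
  obtain ⟨z, φ, hφ, hz⟩ := CompactSpace.tendsto_subseq (fun n => h' (ns n) c)
  have hzx : z = x := by
    by_contra hzx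
    obtain ⟨y, hyx, hyz⟩ := h3 x z
    have hne : ∀ᶠ n in atTop, h' (ns (φ n)) c ≠ x := hz.eventually_ne hzx
    obtain ⟨N, hN⟩ := eventually_atTop.1 hne
    let K : ℕ → ℕ := fun n => ns (φ (n + N))
    have hKt : Tendsto K atTop atTop := hns.comp (hφ.tendsto_atTop.comp (tendsto_add_atTop_nat N))
    have hw : Tendsto (fun n => h' (K n) c) atTop (𝓝 z) := hz.comp (tendsto_add_atTop_nat N)
    have hwx : ∀ n, h' (K n) c ≠ x := fun n => hN _ (Nat.le_add_left _ _)
    have hx : Tendsto (fun n => h (K n) x) atTop (𝓝 a) := ha.comp hKt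
    have hHz : Tendsto (fun n => h (K n) z) atTop (𝓝 b) := (hb z hzx).comp hKt
    have hHy : Tendsto (fun n => h (K n) y) atTop (𝓝 b) := (hb y hyx).comp hKt
    have hcr : Tendsto (fun n => cr (h' (K n) c) z x y) atTop (𝓝 0) := by
      have hnum : Tendsto (fun n => dist (h' (K n) c) z * dist x y) atTop
          (𝓝 (dist z z * dist x y)) := (hw.dist tendsto_const_nhds).mul_const _
      have hden : Tendsto (fun n => dist (h' (K n) c) x * dist z y) atTop
          (𝓝 (dist z x * dist z y)) := (hw.dist tendsto_const_nhds).mul_const _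
      have hd0 : dist z x * dist z y ≠ 0 :=
        mul_ne_zero (dist_ne_zero.2 hzx) (dist_ne_zero.2 hyz.symm)
      have hq := hnum.div hden hd0
      rw [dist_self, zero_mul, zero_div] at hq
      exact hq
    have h0 := qm_zero hθ (k := fun n => h (K n)) (fun n => hh (K n)) (A := fun n => h' (K n) c)
      (B := fun _ => z) (C := fun _ => x) (D := fun _ => y) hwx (fun _ => hyz.symm) hcr
    simp only [e1] at h0
    have hnum : Tendsto (fun n => dist c (h (K n) z) * dist (h (K n) x) (h (K n) y)) atTop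
        (𝓝 (dist c b * dist a b)) := (tendsto_const_nhds.dist hHz).mul (hx.dist hHy)
    have hden : Tendsto (fun n => dist c (h (K n) x) * dist (h (K n) z) (h (K n) y)) atTop
        (𝓝 (dist c a * dist b b)) := (tendsto_const_nhds.dist hx).mul (hHz.dist hHy)
    have hprod := h0.mul hden
    have heq : (fun n => cr c (h (K n) z) (h (K n) x) (h (K n) y) *
        (dist c (h (K n) x) * dist (h (K n) z) (h (K n) y))) =
        fun n => dist c (h (K n) z) * dist (h (K n) x) (h (K n) y) := by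
      funext n
      unfold cr
      refine div_mul_cancel₀ _ (mul_ne_zero (dist_ne_zero.2 ?_) (dist_ne_zero.2 ?_))
      · intro e
        refine hwx n ((hh (K n)).inj ?_)
        rw [e1, e]
      · exact (hh (K n)).inj.ne hyz.symm
    rw [heq, zero_mul] at hprod
    exact mul_ne_zero (dist_ne_zero.2 hcb) (dist_ne_zero.2 hab) (tendsto_nhds_unique hnum hprod)
  subst hzx
  exact ⟨φ, hz⟩

end QSCoh
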