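import Pool.Agent.Lib.MP_cccab4_an.TM.TF
import Pool.Agent.Lib.MP_cccab4_an.P05

set_option autoImplicit false

/-!
# TR: invariance of the tangent form under quasisymmetric homeomorphisms (MODEL: P05 form_transport, same proof)

New: a tangent map `φ : Z ≃ₜ Z` of `cj f` at `z` gives the tangent map `ψ = e ∘ φ ∘ e⁻¹` of `f` at `e z`: sequences `g₁, h₁, h'₁ ∈ G` with
`cj (g₁ j) = g j` etc. (`choose`), `Con (e z) h₁` by continuity of `e` and `e.symm` (`h₁ j (e z) = e (h j z)`), the inverse relations from those of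
`h j, h' j`. The exceptional set of `cj f` is `e ⁻¹' B`, countable (`e` injective). Elements of `cj '' G` are `θ₄`-quasi-Möbius as `φ` there.
-/

open MeasureTheory Metric Set Filter Topology
open scoped ENNReal NNReal

namespace QSCoh

universe u

theorem tform_transport {Z X : Type*} [MetricSpace Z] [CompactSpace Z] [MetricSpace X] (e : Z ≃ₜ X)
    (he : IsQSEmb e) (h : TForm Z) : TForm X := by
  have : CompactSpace X := e.compactSpace
  intro S G δ θ hδ hS hcomp hGS hid hG hinv hco hGq hR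
  have he' : IsQSEmb e.symm := qsemb_symm e he
  -- conjugation
  set cj : (X → X) → (Z → Z) := fun f => e.symm ∘ f ∘ e with hcj
  have hcj_comp : ∀ f g, cj f ∘ cj g = cj (f ∘ g) := by
    intro f g
    funext z
    simp [hcj]
  have hcj_id : cj id = id := by
    funext z
    simp [hcj]
  -- gauges of e and e.symm
  obtain ⟨-, hei, η₁, hη₁, hq₁⟩ := qs_gauge he
  obtain ⟨θ₁, hθ₁, hm₁⟩ := qs_qm (X := Z) (Y := X) hη₁
  have hqe : QM θ₁ e := hm₁ e hei hq₁
  obtain ⟨-, hei', η₂, hη₂, hq₂⟩ := qs_gauge he'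
  obtain ⟨θ₂, hθ₂, hm₂⟩ := qs_qm (X := X) (Y := Z) hη₂
  have hqe' : QM θ₂ e.symm := hm₂ e.symm hei' hq₂
  obtain ⟨θ₃, hθ₃, hm₃⟩ := qmob_gauge (X := X) (Y := X) θ
  obtain ⟨θ₄, hm₄⟩ := gauge_qmob (X := Z) (Y := Z) (gauge_comp (gauge_comp hθ₁ hθ₃) hθ₂)
  -- conjugates of quasi-Möbius maps
  have hconj : ∀ u : X → X, QM θ₃ u → IsQMob θ₄ (cj u) := by
    intro u hu
    have a1 : QM (fun t => θ₃ (θ₁ t)) (fun z => u (e z)) := qm_comp hθ₃ hqe hu
    have a2 : QM (fun t => θ₂ (θ₃ (θ₁ t))) (fun z => e.symm (u (e z))) := qm_comp hθ₂ a1 hqe'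
    exact hm₄ _ a2
  -- separation
  obtain ⟨δ', hδ', hsep⟩ : ∃ δ' > 0, ∀ u w : Z, δ ≤ dist (e u) (e w) → δ' ≤ dist u w := by
    obtain ⟨δ', hδ', huc⟩ := Metric.uniformContinuous_iff.1
      (CompactSpace.uniformContinuous_of_continuous e.continuous) δ hδ
    refine ⟨δ', hδ', fun u w huw => ?_⟩
    by_contra hcon
    push Not at hcon
    exact absurd huw (not_le.2 (huc hcon))
  have hmain := h (cj '' S) (cj '' G) δ' θ₄ hδ' ?_ ?_ (image_mono hGS) ?_ ?_ ?_ ?_ ?_ ?_
  · intro f hf x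
    obtain ⟨z, hz⟩ := hmain (cj f) ⟨f, hf, rfl⟩ (e.symm x)
    exact ⟨e z, e.symm.injective hz⟩
  · rintro _ ⟨f, hf, rfl⟩
    exact qsemb_comp (qsemb_comp he (hS f hf)) he'
  · rintro _ ⟨f, hf, rfl⟩ _ ⟨g, hg, rfl⟩
    exact ⟨f ∘ g, hcomp f hf g hg, (hcj_comp f g).symm⟩
  · exact ⟨id, hid, hcj_id⟩
  · rintro _ ⟨f, hf, rfl⟩ _ ⟨g, hg, rfl⟩
    exact ⟨f ∘ g, hG f hf g hg, (hcj_comp f g).symm⟩
  · rintro _ ⟨g, hg, rfl⟩
    obtain ⟨g', hg', e1, e2⟩ := hinv g hg
    exact ⟨cj g', ⟨g', hg', rfl⟩, by rw [hcj_comp, e1, hcj_id], by rw [hcj_comp, e2, hcj_id]⟩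
  · intro x y z hxy hxz hyz
    obtain ⟨g, hg, s1, s2, s3⟩ := hco (e x) (e y) (e z) (e.injective.ne hxy) (e.injective.ne hxz)
      (e.injective.ne hyz)
    refine ⟨cj g, ⟨g, hg, rfl⟩, hsep _ _ ?_, hsep _ _ ?_, hsep _ _ ?_⟩ <;>
      simpa [hcj]
  · rintro _ ⟨g, hg, rfl⟩
    exact hconj g (hm₃ g (qs_gauge (hS g (hGS hg))).2.1 (hGq g hg))
  · rintro _ ⟨f, hf, rfl⟩
    obtain ⟨B, hB, hBt⟩ := hR f hf
    refine ⟨e ⁻¹' B, hB.preimage e.injective, ?_⟩
    rintro z hz φ ⟨g, k, k', hg, hk, hk', e1, e2, ⟨a, b, hab, hca, hcb⟩, hlim⟩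
    choose g₁ hg₁ hg₂ using hg
    choose k₁ hk₁ hk₂ using hk
    choose k₂ hk₁' hk₂' using hk'
    have ek : ∀ j x, k₁ j x = e (k j (e.symm x)) := by
      intro j x
      rw [← hk₂ j]
      simp [hcj]
    have ek' : ∀ j x, k₂ j x = e (k' j (e.symm x)) := by
      intro j x
      rw [← hk₂' j]
      simp [hcj]
    set ψ : X ≃ₜ X := (e.symm.trans φ).trans e with hψ
    have hlim' : TendstoUniformly (fun j => g₁ j ∘ f ∘ k₂ j) ψ atTop := by
      have huc : UniformContinuous e := CompactSpace.uniformContinuous_of_continuous e.continuous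
      have h1 := huc.comp_tendstoUniformly hlim
      have h2 := h1.comp e.symm
      have e1 : (fun j => (e ∘ (g j ∘ cj f ∘ k' j)) ∘ e.symm) = fun j => g₁ j ∘ f ∘ k₂ j := by
        funext j x
        simp only [Function.comp_apply, ← hg₂ j, ← hk₂' j, hcj, Homeomorph.apply_symm_apply]
      have e2 : (e ∘ φ) ∘ e.symm = ψ := by
        funext x
        rfl
      rw [← e1, ← e2]
      exact h2
    have hT : Tan G f (e z) ψ := by
      refine ⟨g₁, k₁, k₂, hg₁, hk₁, hk₁', ?_, ?_, ⟨e a, e b, e.injective.ne hab, ?_, ?_⟩, hlim'⟩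
      · intro j u
        rw [ek, ek', e.symm_apply_apply, e1, e.apply_symm_apply]
      · intro j u
        rw [ek', ek, e.symm_apply_apply, e2, e.apply_symm_apply]
      · have := (e.continuous.tendsto a).comp hca
        refine this.congr fun j => ?_
        show e (k j z) = k₁ j (e z)
        rw [ek, e.symm_apply_apply]
      · intro y hy
        have hy' : e.symm y ≠ z := fun he2 => hy (by rw [← he2, e.apply_symm_apply])
        have := (e.continuous.tendsto b).comp (hcb _ hy')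
        refine this.congr fun j => ?_
        show e (k j (e.symm y)) = k₁ j y
        rw [ek]
    have hψq : IsQMob θ ψ := hBt (e z) hz ψ hT
    have hψQ : QM θ₃ ψ := hm₃ ψ ψ.injective hψq
    have h1 := hconj ψ hψQ
    have a3 : cj ψ = φ := by
      funext z
      simp [hψ, hcj]
    rw [a3] at h1
    exact h1

theorem tform_ql {X : Type u} [MetricSpace X] [CompactSpace X] (h : QSLoewner X) : TForm X := by
  obtain ⟨Z, _, _, _, Q, e, he, hL⟩ := h
  have : CompactSpace Z := e.symm.compactSpace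
  exact tform_transport e he (tform_loewner hL)

end QSCoh
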