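import Pool.Agent.Lib.MP_cccab4_an.Pub
import Pool.Agent.Lib.MP_cccab4_an.A08

set_option autoImplicit false

/-!
# TM, W0: semigroups whose tangent maps (at all points outside a null set) are uniformly quasi-Möbius
-/

open MeasureTheory Metric Set Filter Topology
open scoped ENNReal NNReal

namespace QSCoh

/-- `h j` converges to `b` on the complement of `x` and `h j x` converges to `a ≠ b`. -/
def Con {Z : Type*} [TopologicalSpace Z] (x : Z) (h : ℕ → Z → Z) : Prop :=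
  ∃ a b : Z, a ≠ b ∧ Tendsto (fun j => h j x) atTop (𝓝 a) ∧
    ∀ y, y ≠ x → Tendsto (fun j => h j y) atTop (𝓝 b)

/-- `φ` is a tangent map of `f` at `x` : the uniform limit of `g j ∘ f ∘ h' j`, where `h' j` is the inverse
of `h j` and `h j` is conical at `x`. -/
def Tan {Z : Type*} [UniformSpace Z] (G : Set (Z → Z)) (f : Z → Z) (x : Z) (φ : Z → Z) : Prop :=
  ∃ g h h' : ℕ → Z → Z, (∀ j, g j ∈ G) ∧ (∀ j, h j ∈ G) ∧ (∀ j, h' j ∈ G) ∧ (∀ j u, h j (h' j u) = u) ∧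
    (∀ j u, h' j (h j u) = u) ∧ Con x h ∧ TendstoUniformly (fun j => g j ∘ f ∘ h' j) φ atTop

/-- Hypotheses on the semigroup `S` of embeddings and its subgroup `G`, weaker than `Sg`: the bijective
tangent maps of `f ∈ S` at all points outside a set whose image is null are `θ₀`-quasi-Möbius. -/
structure Sgw (Z : Type*) [MetricSpace Z] [MeasurableSpace Z] (μ : Measure Z) (S G : Set (Z → Z))
    (δ₀ : ℝ) (θ₀ : ℝ → ℝ) : Prop where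
  grp : Sg Z G G δ₀ θ₀
  sub : G ⊆ S
  comp : ∀ f ∈ S, ∀ g ∈ S, f ∘ g ∈ S
  cont : ∀ f ∈ S, Continuous f
  qs : ∀ f ∈ S, ∃ η, Gauge η ∧ QSg η f
  qm : ∀ f ∈ S, ∃ θ, Gauge θ ∧ QM θ f
  rig : ∀ f ∈ S, ∃ B : Set Z, μ (f '' B) = 0 ∧ ∀ x, x ∉ B → ∀ φ : Z → Z, Tan G f x φ →
    Function.Bijective φ → QM θ₀ φ

namespace Sgw

variable {Z : Type*} [MetricSpace Z] [MeasurableSpace Z] {μ : Measure Z} {S G : Set (Z → Z)}
  {δ₀ : ℝ} {θ₀ : ℝ → ℝ}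

theorem hδ (K : Sgw Z μ S G δ₀ θ₀) : 0 < δ₀ := K.grp.hδ

theorem gauge (K : Sgw Z μ S G δ₀ θ₀) : Gauge θ₀ := K.grp.gauge

theorem id_mem (K : Sgw Z μ S G δ₀ θ₀) : id ∈ G := K.grp.id_mem

theorem inv (K : Sgw Z μ S G δ₀ θ₀) : ∀ g ∈ G, ∃ g' ∈ G, g ∘ g' = id ∧ g' ∘ g = id := K.grp.inv

theorem compG (K : Sgw Z μ S G δ₀ θ₀) : ∀ f ∈ G, ∀ g ∈ G, f ∘ g ∈ G := K.grp.compG

theorem co (K : Sgw Z μ S G δ₀ θ₀) :
    ∀ x y z : Z, x ≠ y → x ≠ z → y ≠ z → ∃ h ∈ G, Sep δ₀ (h x) (h y) (h z) := K.grp.co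

end Sgw

end QSCoh
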