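import Pool.Agent.Lib.MP_cccab4_an.TM.W0
import Pool.Agent.Lib.MP_cccab4_an.T02a

/-!
# TM, W1: limits of zooms at density points are surjective (T02a for Sgw)
-/

open MeasureTheory Metric Set Filter Topology
open scoped ENNReal NNReal

namespace QSCoh.W

variable {Z : Type*} [MetricSpace Z] [CompactSpace Z] [MeasurableSpace Z] [BorelSpace Z]
  {μ : Measure Z} {Q : ℝ}

/-- Limits of zooms at a density point of the image are surjective. -/
theorem surj {S G : Set (Z → Z)} {δ₀ : ℝ} {θ₀ : ℝ → ℝ} (H : Sp Z μ Q) (K : Sgw Z μ S G δ₀ θ₀) {f : Z → Z} (hf : f ∈ S) {x : Z}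
    (hd : Dens μ (range f) (f x)) {r : ℕ → ℝ} (hr : Tendsto r atTop (𝓝[>] 0)) {y z : ℕ → Z}
    (hy : ∀ j, dist x (y j) = r j) (hz : ∀ j, diam (univ : Set Z) / 2 ≤ dist x (z j))
    {h h' g : ℕ → Z → Z} (hh : ∀ j, Zm G δ₀ (h j) x (y j) (z j))
    (hi' : ∀ j w, h' j (h j w) = w)
    (hg : ∀ j, Zm G δ₀ (g j) (f x) (f (y j)) (f (z j))) {φ : Z → Z} (hφ : Continuous φ)
    (hlim : TendstoUniformly (fun j w => g j (f (h' j w))) φ atTop) : Function.Surjective φ := by
  classical
  by_contra hns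
  rw [Function.Surjective] at hns
  push Not at hns
  obtain ⟨q, hq⟩ := hns
  have hfc := K.cont f hf
  obtain ⟨θ, -, hqm⟩ := K.qm f hf
  set D := diam (univ : Set Z) with hD
  have hDpos : 0 < D := H.hD
  -- the distance from q to the range of φ
  have hcl : IsClosed (range φ) := (isCompact_range hφ).isClosed
  obtain ⟨ρ₂, hρ₂, hρball⟩ := Metric.isOpen_iff.1 hcl.isOpen_compl q (fun ⟨w, hw⟩ => hq w hw)
  set ρ := ρ₂ / 2 with hρ
  have hρpos : 0 < ρ := by positivity
  have hφq : ∀ w, 2 * ρ ≤ dist q (φ w) := by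
    intro w
    by_contra hlt
    push Not at hlt
    have : φ w ∈ ball q ρ₂ := by rw [mem_ball, dist_comm]; linarith
    exact hρball this ⟨w, rfl⟩
  have hFq : ∀ᶠ j in atTop, ∀ u, ρ ≤ dist q (g j (f u)) := by
    have h1 := Metric.tendstoUniformly_iff.1 hlim ρ hρpos
    filter_upwards [h1] with j hj u
    have h2 := hj (h j u)
    rw [hi'] at h2
    have h3 := hφq (h j u)
    have h4 := dist_triangle q (g j (f u)) (φ (h j u))
    rw [dist_comm (g j (f u))] at h4
    linarith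
  -- zoom constants
  obtain ⟨σ₂, hσ₂, M, hM, hz2⟩ := zoom2 K.grp hρpos
  obtain ⟨σ₃, hσ₃, τ', hτ', hz3⟩ := zoom3 K.grp (M := M + 1) (by linarith) (ε := ρ / 2) (by linarith)
  set τ := min τ' 1 with hτ
  have hτpos : 0 < τ := lt_min hτ' one_pos
  -- scales in the target
  set s : ℕ → ℝ := fun j => dist (f x) (f (y j)) with hs
  have hs0 : ∀ j, 0 < s j := fun j => dist_pos.2 (hqm.inj.ne (hh j).ne)
  have hyx : Tendsto y atTop (𝓝 x) := by
    rw [tendsto_iff_dist_tendsto_zero]
    have h1 : (fun j => dist (y j) x) = r := by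
      ext j; rw [dist_comm]; exact hy j
    rw [h1]
    exact hr.mono_right nhdsWithin_le_nhds
  have hslim : Tendsto s atTop (𝓝 0) := by
    have h1 : Tendsto (fun j => dist (f x) (f (y j))) atTop (𝓝 (dist (f x) (f x))) :=
      tendsto_const_nhds.dist ((hfc.tendsto x).comp hyx)
    rwa [dist_self] at h1
  obtain ⟨D₁, hD₁, hlow⟩ : ∃ D₁ > 0, ∀ w, D / 2 ≤ dist x w → D₁ ≤ dist (f x) (f w) := by
    set A : Set Z := {w | D / 2 ≤ dist x w} with hA
    have hAc : IsCompact A := (isClosed_le continuous_const (continuous_const.dist continuous_id)).isCompact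
    have hcont : Continuous fun w : Z => dist (f x) (f w) := continuous_const.dist hfc
    obtain ⟨w₀, hw₀, hmin⟩ := hAc.exists_isMinOn ⟨z 0, hz 0⟩ hcont.continuousOn
    refine ⟨dist (f x) (f w₀), dist_pos.2 (hqm.inj.ne fun e => ?_), fun w hw => hmin hw⟩
    have : D / 2 ≤ dist x w₀ := hw₀
    rw [← e, dist_self] at this
    linarith
  have hsmall : ∀ σ > 0, ∀ᶠ j in atTop, s j ≤ σ * dist (f x) (f (z j)) := by
    intro σ hσ
    filter_upwards [hslim.eventually_lt_const (show 0 < σ * D₁ by positivity)] with j hj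
    exact hj.le.trans (mul_le_mul_of_nonneg_left (hlow _ (hz j)) hσ.le)
  -- preimages of q
  choose u hu using fun j => (G_qm K.grp (hg j).mem).2.1.2 q
  have hu1 : ∀ᶠ j in atTop, dist (f x) (u j) ≤ M * s j := by
    filter_upwards [hFq, hsmall σ₂ hσ₂] with j hj1 hj2
    refine hz2 (g j) (f x) (f (y j)) (f (z j)) (hg j) hj2 (u j) ?_
    rw [hu]
    exact hj1 (z j)
  refine dens_hole H hd hs0 hslim hM hτpos (min_le_right _ _) hu1 ?_
  filter_upwards [hFq, hsmall σ₃ hσ₃, hu1] with j hj1 hj2 hj3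
  refine disjoint_left.2 ?_
  rintro _ ⟨w, rfl⟩ hw
  rw [mem_closedBall] at hw
  have hsj := hs0 j
  have h1 : dist (u j) (f w) ≤ τ' * s j := by
    rw [dist_comm]
    exact hw.trans (mul_le_mul_of_nonneg_right (min_le_left _ _) hsj.le)
  have h2 : dist (f x) (u j) ≤ (M + 1) * s j := by nlinarith
  have h3 : dist (f x) (f w) ≤ (M + 1) * s j := by
    have h4 := dist_triangle (f x) (u j) (f w)
    rw [dist_comm] at hw
    have h5 : τ * s j ≤ 1 * s j := mul_le_mul_of_nonneg_right (min_le_right _ _) hsj.le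
    linarith
  have h6 := hz3 (g j) (f x) (f (y j)) (f (z j)) (hg j) hj2 (u j) (f w) h2 h3 h1
  rw [hu] at h6
  have h7 := hj1 w
  linarith


end QSCoh.W
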