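import Pool.Agent.Lib.MP_cccab4_an.TM.W1
import Pool.Agent.Lib.MP_cccab4_an.T02b

/-!
# TM, W2: zooms at points with uniformly quasi-Moebius tangent maps (T02b for Sgw)
-/

open MeasureTheory Metric Set Filter Topology
open scoped ENNReal NNReal

namespace QSCoh.W

variable {Z : Type*} [MetricSpace Z] [CompactSpace Z] [MeasurableSpace Z] [BorelSpace Z]
  {μ : Measure Z} {Q : ℝ}

/-- Zooms are conical at their centre, for a subsequence. -/
theorem con_zoom {S G : Set (Z → Z)} {δ₀ : ℝ} {θ₀ : ℝ → ℝ} (K : Sg Z S G δ₀ θ₀) {x : Z} {y z : ℕ → Z}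
    {h : ℕ → Z → Z} (hh : ∀ j, Zm G δ₀ (h j) x (y j) (z j))
    (hy : Tendsto (fun j => dist x (y j)) atTop (𝓝 0)) {D₀ : ℝ} (hD : 0 < D₀)
    (hz : ∀ j, D₀ ≤ dist x (z j)) : ∃ φ : ℕ → ℕ, StrictMono φ ∧ Con x (fun j => h (φ j)) := by
  obtain ⟨a, φ₁, hφ₁, ha⟩ := CompactSpace.tendsto_subseq (fun j => h j x)
  obtain ⟨b, φ₂, hφ₂, hb⟩ := CompactSpace.tendsto_subseq (fun j => h (φ₁ j) (z (φ₁ j)))
  have hφ := hφ₁.comp hφ₂
  have ha' : Tendsto (fun j => h (φ₁ (φ₂ j)) x) atTop (𝓝 a) := ha.comp hφ₂.tendsto_atTop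
  refine ⟨fun j => φ₁ (φ₂ j), hφ, a, b, ?_, ha', ?_⟩
  · rintro rfl
    have h1 : Tendsto (fun j => dist (h (φ₁ (φ₂ j)) x) (h (φ₁ (φ₂ j)) (z (φ₁ (φ₂ j))))) atTop
        (𝓝 (dist a a)) := ha'.dist hb
    have h2 : δ₀ ≤ dist a a := ge_of_tendsto' h1 fun j => (hh _).sep.2.1
    rw [dist_self] at h2
    have := K.hδ
    linarith
  · intro u hu
    rw [tendsto_iff_dist_tendsto_zero]
    have hb0 := tendsto_iff_dist_tendsto_zero.1 hb
    have hd : Tendsto (fun j => dist (h (φ₁ (φ₂ j)) u) (h (φ₁ (φ₂ j)) (z (φ₁ (φ₂ j))))) atTop (𝓝 0) := by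
      rw [Metric.tendsto_atTop]
      intro κ hκ
      obtain ⟨σ, hσ, M, hM, hz2⟩ := zoom2 K hκ
      have hux : 0 < dist x u := dist_pos.2 hu.symm
      have e1 : ∀ᶠ j in atTop, dist x (y (φ₁ (φ₂ j))) < min (σ * D₀) (dist x u / M) :=
        (hy.comp hφ.tendsto_atTop).eventually_lt_const (lt_min (mul_pos hσ hD) (div_pos hux hM))
      obtain ⟨N, hN⟩ := eventually_atTop.1 e1
      refine ⟨N, fun j hj => ?_⟩
      have h1 := hN j hj
      have h2 : dist x (y (φ₁ (φ₂ j))) ≤ σ * dist x (z (φ₁ (φ₂ j))) :=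
        (h1.le.trans (min_le_left _ _)).trans (mul_le_mul_of_nonneg_left (hz _) hσ.le)
      rw [Real.dist_eq, sub_zero, abs_of_nonneg dist_nonneg]
      by_contra hcon
      push Not at hcon
      have h3 := hz2 (h (φ₁ (φ₂ j))) x (y (φ₁ (φ₂ j))) (z (φ₁ (φ₂ j))) (hh _) h2 u hcon
      have h4 : dist x (y (φ₁ (φ₂ j))) < dist x u / M := h1.trans_le (min_le_right _ _)
      rw [lt_div_iff₀ hM] at h4
      linarith
    have hs := hd.add hb0
    rw [add_zero] at hs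
    exact squeeze_zero (fun _ => dist_nonneg) (fun j => dist_triangle (h (φ₁ (φ₂ j)) u)
      (h (φ₁ (φ₂ j)) (z (φ₁ (φ₂ j)))) b) hs

/-- Zooms at a density point of the image are close to uniformly quasi-Möbius homeomorphisms. -/
theorem approx {S G : Set (Z → Z)} {δ₀ : ℝ} {θ₀ : ℝ → ℝ} (H : Sp Z μ Q) (K : Sgw Z μ S G δ₀ θ₀) {f : Z → Z} (hf : f ∈ S) {x : Z}
    (hd : Dens μ (range f) (f x))
    (hB : ∀ φ : Z → Z, Tan G f x φ → Function.Bijective φ → QM θ₀ φ) {ε : ℝ} (hε : 0 < ε) : ∃ r₀ > 0, ∀ y z : Z, dist x y < r₀ →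
    diam (univ : Set Z) / 2 ≤ dist x z → ∀ h h' g : Z → Z, Zm G δ₀ h x y z → h' ∈ G →
    (∀ w, h (h' w) = w) → (∀ w, h' (h w) = w) → Zm G δ₀ g (f x) (f y) (f z) →
    ∃ φ : Z → Z, Function.Bijective φ ∧ Continuous φ ∧ QM θ₀ φ ∧
      ∀ w, dist (g (f (h' w))) (φ w) ≤ ε := by
  by_contra hcon
  push Not at hcon
  have hp : ∀ j : ℕ, (0 : ℝ) < 1 / (j + 1) := fun j => by positivity
  choose y z hxy hxz h h' g hh hh' e1 e2 hg hbad using fun j : ℕ => hcon (1 / ((j : ℝ) + 1)) (hp j)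
  obtain ⟨θ, hθ, hqm⟩ := K.qm f hf
  set F : ℕ → Z → Z := fun j w => g j (f (h' j w)) with hF
  set Θ : ℝ → ℝ := fun t => θ₀ (θ (θ₀ t)) with hΘ
  have hΘg : Gauge Θ := gauge_comp (gauge_comp K.gauge hθ) K.gauge
  have hFqm : ∀ j, QM Θ (F j) := fun j =>
    qm_comp K.gauge (qm_comp hθ (G_qm K.grp (hh' j)).1 hqm) (G_qm K.grp (hg j).mem).1
  have htrip : ∀ j, ∃ a b c, Sep δ₀ a b c ∧ Sep δ₀ (F j a) (F j b) (F j c) := fun j =>
    ⟨h j x, h j (y j), h j (z j), (hh j).sep, by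
      simp only [hF, e2]
      exact (hg j).sep⟩
  obtain ⟨φ, hφ, f', hf'c, hlim⟩ := extract F (fun ε hε => by
    obtain ⟨τ, hτ, h1⟩ := qm_equi (Z := Z) hΘg K.hδ hε
    exact ⟨τ, hτ, fun j a b hab => h1 (F j) (hFqm j) (htrip j) a b hab⟩)
  have hpt : ∀ w, Tendsto (fun j => F (φ j) w) atTop (𝓝 (f' w)) := fun w => hlim.tendsto_at w
  -- injectivity of the limit
  have hinj : Function.Injective f' := by
    intro a b hab
    by_contra hne
    obtain ⟨τ, hτ, h1⟩ := qm_lower (Z := Z) hΘg K.hδ (ε := dist a b) (dist_pos.2 hne)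
    have h2 : Tendsto (fun j => dist (F (φ j) a) (F (φ j) b)) atTop (𝓝 (dist (f' a) (f' b))) :=
      (hpt a).dist (hpt b)
    have h3 : τ ≤ dist (f' a) (f' b) :=
      ge_of_tendsto' h2 fun j => h1 (F (φ j)) (hFqm _) (htrip _) a b le_rfl
    rw [hab, dist_self] at h3
    linarith
  -- surjectivity
  have hrt : Tendsto (fun j => dist x (y (φ j))) atTop (𝓝[>] 0) := by
    refine tendsto_nhdsWithin_iff.2 ⟨?_, Eventually.of_forall fun j => dist_pos.2 (hh (φ j)).ne⟩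
    refine squeeze_zero (fun _ => dist_nonneg) (fun j => (hxy (φ j)).le) ?_
    exact (tendsto_one_div_add_atTop_nhds_zero_nat (𝕜 := ℝ)).comp hφ.tendsto_atTop
  have hsurj : Function.Surjective f' :=
    surj H K hf hd hrt (y := fun j => y (φ j)) (z := fun j => z (φ j)) (fun _ => rfl)
      (fun j => hxz (φ j)) (h := fun j => h (φ j)) (h' := fun j => h' (φ j))
      (g := fun j => g (φ j)) (fun j => hh (φ j)) (fun j w => e2 (φ j) w) (fun j => hg (φ j)) hf'c hlim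
  have hbij : Function.Bijective f' := ⟨hinj, hsurj⟩
  have hDpos : 0 < diam (univ : Set Z) / 2 := half_pos H.hD
  obtain ⟨ψ, hψ, hcon⟩ := con_zoom K.grp (h := fun j => h (φ j)) (y := fun j => y (φ j))
    (z := fun j => z (φ j)) (fun j => hh (φ j)) (hrt.mono_right nhdsWithin_le_nhds) hDpos
    (fun j => hxz (φ j))
  have hq : QM θ₀ f' := hB f' ⟨fun j => g (φ (ψ j)), fun j => h (φ (ψ j)), fun j => h' (φ (ψ j)),
    fun j => (hg _).mem, fun j => (hh _).mem, fun j => hh' _, fun j w => e1 _ w, fun j w => e2 _ w,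
    hcon, fun u hu => hψ.tendsto_atTop.eventually (hlim u hu)⟩ hbij
  obtain ⟨j, hj⟩ := (Metric.tendstoUniformly_iff.1 hlim ε hε).exists
  obtain ⟨w, hw⟩ := hbad (φ j) f' hbij hf'c hq
  have := hj w
  rw [dist_comm] at this
  linarith


end QSCoh.W
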