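import Pool.Agent.Lib.MP_cccab4_an.TM.W2
import Pool.Agent.Lib.MP_cccab4_an.T03

/-!
# TM, W3: images of small balls (T03 for Sgw)
-/

open MeasureTheory Metric Set Filter Topology
open scoped ENNReal NNReal

namespace QSCoh.W

variable {Z : Type*} [MetricSpace Z] [CompactSpace Z] [MeasurableSpace Z] [BorelSpace Z]
  {μ : Measure Z} {Q : ℝ}

/-- At almost every point the images of small balls have measure comparable to the `Q`-th power of
their diameter, with a universal constant. -/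
theorem star {S G : Set (Z → Z)} {δ₀ : ℝ} {θ₀ : ℝ → ℝ} (H : Sp Z μ Q) (K : Sgw Z μ S G δ₀ θ₀) : ∃ C : ℝ, 0 < C ∧ ∀ f ∈ S, ∀ x : Z,
    Dens μ (range f) (f x) → (∀ φ : Z → Z, Tan G f x φ → Function.Bijective φ → QM θ₀ φ) → ∃ r₀ > 0, ∀ r : ℝ, 0 < r → r < r₀ → ∀ x' ∈ ball x r,
      diam (f '' ball x' r) ^ Q ≤ C * μ.real (f '' ball x' r) := by
  have := finite_mu H
  have hQ : 0 < Q := by linarith [H.hQ]
  have hδ := K.hδ
  obtain ⟨C, hC, hup⟩ := mass_upper H
  obtain ⟨c, hc, hlo⟩ := mass_lower H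
  set D := diam (univ : Set Z) with hD
  have hDpos : 0 < D := H.hD
  -- source constants
  obtain ⟨σ₁, hσ₁, c₂, hc₂, hz1⟩ := zoom1 K.grp (M := 2) (by norm_num)
  obtain ⟨σ₂, hσ₂, M₂, hM₂, hz2⟩ := zoom2 K.grp (κ := c₂ / 2) (by linarith)
  obtain ⟨σ₃, hσ₃, c₁', hc₁', hz4⟩ := zoom4 K.grp (M := M₂ + 2) (by linarith) (ε := 1 / 2) (by norm_num)
  set c₁ := min c₁' (c₂ / 2) with hc₁
  have hc₁pos : 0 < c₁ := lt_min hc₁' (by linarith)
  -- constants for the limit homeomorphism
  obtain ⟨c₃, hc₃, hl3⟩ := qm_lower (Z := Z) K.gauge (δ := δ₀ / 2) (by linarith) (ε := c₁) hc₁pos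
  obtain ⟨c₄, hc₄, hl4⟩ := qm_lower (Z := Z) K.gauge (δ := δ₀ / 2) (by linarith) (ε := c₂) hc₂
  set ε := min (c₃ / 4) (min (c₄ / 4) (δ₀ / 4)) with hε
  have hεpos : 0 < ε := by
    simp only [hε, lt_min_iff]; exact ⟨by linarith, by linarith, by linarith⟩
  have hε3 : ε ≤ c₃ / 4 := min_le_left _ _
  have hε4 : ε ≤ c₄ / 4 := (min_le_right _ _).trans (min_le_left _ _)
  have hεδ : ε ≤ δ₀ / 4 := (min_le_right _ _).trans (min_le_right _ _)
  -- target constants
  obtain ⟨σ₄, hσ₄, M₅, hM₅, hz2'⟩ := zoom2 K.grp (κ := c₄ / 2) (by linarith)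
  obtain ⟨σ₅, hσ₅, τ', hτ', hz3⟩ := zoom3 K.grp (M := M₅ + 1) (by linarith) (ε := c₃ / 4) (by linarith)
  set τ := min τ' 1 with hτ
  have hτpos : 0 < τ := lt_min hτ' one_pos
  -- the constant
  refine ⟨2 * (2 * M₅) ^ Q / (c * τ ^ Q), by positivity, fun f hf x hd hB => ?_⟩
  have hfc := K.cont f hf
  obtain ⟨θ, -, hqm⟩ := K.qm f hf
  obtain ⟨r₁, hr₁, happ⟩ := approx H K hf hd hB hεpos
  -- lower bound for d(f x, f w) when d(x,w) ≥ D/2
  obtain ⟨D₁, hD₁, hlow⟩ : ∃ D₁ > 0, ∀ w, D / 2 ≤ dist x w → D₁ ≤ dist (f x) (f w) := by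
    set A : Set Z := {w | D / 2 ≤ dist x w} with hA
    have hAc : IsCompact A := (isClosed_le continuous_const (continuous_const.dist continuous_id)).isCompact
    have hcont : Continuous fun w : Z => dist (f x) (f w) := continuous_const.dist hfc
    obtain ⟨z₀, hz₀⟩ := far H x
    obtain ⟨w₀, hw₀, hmin⟩ := hAc.exists_isMinOn ⟨z₀, hz₀⟩ hcont.continuousOn
    refine ⟨dist (f x) (f w₀), dist_pos.2 (hqm.inj.ne fun e => ?_), fun w hw => hmin hw⟩
    have : D / 2 ≤ dist x w₀ := hw₀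
    rw [← e, dist_self] at this
    linarith
  -- density
  set q := c * τ ^ Q / (2 * C * (M₅ + 1) ^ Q) with hq
  have hqpos : 0 < q := by positivity
  obtain ⟨ρ₀, hρ₀, hdens⟩ : ∃ ρ₀ > 0, ∀ ρ, 0 < ρ → ρ < ρ₀ →
      μ.real (closedBall (f x) ρ \ range f) ≤ q * μ.real (closedBall (f x) ρ) := by
    have h1 : ∀ᶠ ρ in 𝓝[>] (0:ℝ), ENNReal.ofReal (1 - q) <
        μ (range f ∩ closedBall (f x) ρ) / μ (closedBall (f x) ρ) := by
      refine hd.eventually_const_lt ?_
      rw [ENNReal.ofReal_lt_one]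
      linarith
    obtain ⟨ρ₀, hρ₀, h2⟩ := (mem_nhdsGT_iff_exists_Ioo_subset).1 h1
    refine ⟨ρ₀, hρ₀, fun ρ hρ hρ' => ?_⟩
    have h3 : ENNReal.ofReal (1 - q) <
        μ (range f ∩ closedBall (f x) ρ) / μ (closedBall (f x) ρ) := h2 ⟨hρ, hρ'⟩
    have hrm : MeasurableSet (range f) := (isCompact_range hfc).isClosed.measurableSet
    have hBpos : 0 < μ.real (closedBall (f x) ρ) :=
      (mass_ball_pos H (f x) hρ).trans_le (measureReal_mono ball_subset_closedBall)
    have h4 : 1 - q ≤ μ.real (range f ∩ closedBall (f x) ρ) / μ.real (closedBall (f x) ρ) := by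
      rw [Measure.real, Measure.real, ← ENNReal.toReal_div]
      refine (ENNReal.ofReal_le_iff_le_toReal ?_).1 h3.le
      exact (ENNReal.div_lt_top (measure_ne_top _ _)
        (ENNReal.toReal_pos_iff.1 hBpos).1.ne').ne
    rw [le_div_iff₀ hBpos] at h4
    have h5 := measureReal_inter_add_sdiff (μ := μ) (s := closedBall (f x) ρ) hrm
    rw [inter_comm] at h5
    linarith
  -- continuity of f at x
  obtain ⟨r₂, hr₂, hcont⟩ := Metric.continuous_iff.1 hfc x
    (min (min (σ₄ * D₁) (σ₅ * D₁)) (ρ₀ / (M₅ + 1))) (by positivity)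
  set r₀ := min (min r₁ r₂) (min (D / 2) (min (min (σ₁ * D / 2) (σ₂ * D / 2)) (σ₃ * D / 2))) with hr₀
  have hr₀pos : 0 < r₀ := by
    simp only [hr₀, lt_min_iff]
    refine ⟨⟨hr₁, hr₂⟩, by positivity, ⟨by positivity, by positivity⟩, by positivity⟩
  refine ⟨r₀, hr₀pos, fun r hr hrr x' hx' => ?_⟩
  have hrr1 : r < r₁ := hrr.trans_le ((min_le_left _ _).trans (min_le_left _ _))
  have hrr2 : r < r₂ := hrr.trans_le ((min_le_left _ _).trans (min_le_right _ _))
  have hrD : r < D / 2 := hrr.trans_le ((min_le_right _ _).trans (min_le_left _ _))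
  have hrσ1 : r < σ₁ * D / 2 := hrr.trans_le ((min_le_right _ _).trans ((min_le_right _ _).trans
    ((min_le_left _ _).trans (min_le_left _ _))))
  have hrσ2 : r < σ₂ * D / 2 := hrr.trans_le ((min_le_right _ _).trans ((min_le_right _ _).trans
    ((min_le_left _ _).trans (min_le_right _ _))))
  have hrσ3 : r < σ₃ * D / 2 := hrr.trans_le ((min_le_right _ _).trans ((min_le_right _ _).trans
    (min_le_right _ _)))
  obtain ⟨y, z, h, hxy, hxz, hh⟩ := zoom_exists H K.grp x hr hrD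
  obtain ⟨h', hh', e1', e2'⟩ := K.inv h hh.mem
  have e1 : ∀ w, h (h' w) = w := fun w => congrFun e1' w
  have e2 : ∀ w, h' (h w) = w := fun w => congrFun e2' w
  -- the three points are distinct
  have hxz' : x ≠ z := by
    rintro rfl
    rw [dist_self] at hxz
    linarith
  have hyz' : y ≠ z := by
    rintro rfl
    have := hh.sep.2.2
    rw [dist_self] at this
    linarith
  have hyx : dist (f x) (f y) < min (min (σ₄ * D₁) (σ₅ * D₁)) (ρ₀ / (M₅ + 1)) := by
    rw [dist_comm]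
    exact hcont y (by rw [dist_comm, hxy]; exact hrr2)
  obtain ⟨g, hgG, hgsep⟩ := K.co (f x) (f y) (f z) (hqm.inj.ne hh.ne) (hqm.inj.ne hxz')
    (hqm.inj.ne hyz')
  have hg : Zm G δ₀ g (f x) (f y) (f z) := ⟨hgG, hqm.inj.ne hh.ne, hgsep⟩
  set s := dist (f x) (f y) with hs
  have hs0 : 0 < s := dist_pos.2 (hqm.inj.ne hh.ne)
  have hfz : D₁ ≤ dist (f x) (f z) := hlow z hxz
  have hsσ4 : s ≤ σ₄ * dist (f x) (f z) :=
    (hyx.le.trans ((min_le_left _ _).trans (min_le_left _ _))).trans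
      (mul_le_mul_of_nonneg_left hfz hσ₄.le)
  have hsσ5 : s ≤ σ₅ * dist (f x) (f z) :=
    (hyx.le.trans ((min_le_left _ _).trans (min_le_right _ _))).trans
      (mul_le_mul_of_nonneg_left hfz hσ₅.le)
  have hsρ : (M₅ + 1) * s < ρ₀ := by
    have h1 : s < ρ₀ / (M₅ + 1) := hyx.trans_le (min_le_right _ _)
    rw [lt_div_iff₀ (by linarith)] at h1
    linarith
  have hσx : ∀ σ : ℝ, 0 < σ → r < σ * D / 2 → dist x y ≤ σ * dist x z := by
    intro σ hσ hrσ
    rw [hxy]
    have := mul_le_mul_of_nonneg_left hxz hσ.le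
    linarith
  -- source zoom facts
  have s1 := hz1 h x y z hh (hσx σ₁ hσ₁ hrσ1)
  have s2 := hz2 h x y z hh (hσx σ₂ hσ₂ hrσ2)
  have s4 := hz4 h x y z hh (hσx σ₃ hσ₃ hrσ3)
  rw [hxy] at s1 s2 s4
  -- target zoom facts
  have t2 := hz2' g (f x) (f y) (f z) hg hsσ4
  have t3 := hz3 g (f x) (f y) (f z) hg hsσ5
  rw [← hs] at t2 t3
  -- the approximating homeomorphism
  obtain ⟨φ, hφb, hφc, hφq, hφ⟩ := happ y z (by rw [hxy]; exact hrr1) hxz h h' g hh hh' e1 e2 hg
  have hφ' : ∀ u, dist (g (f u)) (φ (h u)) ≤ ε := by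
    intro u
    have := hφ (h u)
    rwa [e2] at this
  have htrip : ∃ a b c, Sep (δ₀ / 2) a b c ∧ Sep (δ₀ / 2) (φ a) (φ b) (φ c) := by
    refine ⟨h x, h y, h z, ⟨by linarith [hh.sep.1], by linarith [hh.sep.2.1],
      by linarith [hh.sep.2.2]⟩, ?_, ?_, ?_⟩
    · have a1 := hg.sep.1
      have a2 := dist_triangle4 (g (f x)) (φ (h x)) (φ (h y)) (g (f y))
      have a3 := hφ' x
      have a4 := hφ' y
      rw [dist_comm] at a4
      linarith
    · have a1 := hg.sep.2.1
      have a2 := dist_triangle4 (g (f x)) (φ (h x)) (φ (h z)) (g (f z))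
      have a3 := hφ' x
      have a4 := hφ' z
      rw [dist_comm] at a4
      linarith
    · have a1 := hg.sep.2.2
      have a2 := dist_triangle4 (g (f y)) (φ (h y)) (φ (h z)) (g (f z))
      have a3 := hφ' y
      have a4 := hφ' z
      rw [dist_comm] at a4
      linarith
  have l3 := hl3 φ hφq htrip
  have l4 := hl4 φ hφq htrip
  rw [mem_ball] at hx'
  -- (a)
  have hfar : ∀ u, dist x u ≤ 2 * r → c₂ ≤ dist (h u) (h z) := fun u hu => s1 u hu
  have ha : ∀ u, dist x u ≤ 2 * r → dist (f x) (f u) ≤ M₅ * s := by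
    intro u hu
    refine t2 (f u) ?_
    have b1 := l4 (h u) (h z) (hfar u hu)
    have b2 := dist_triangle4 (φ (h u)) (g (f u)) (g (f z)) (φ (h z))
    have b3 := hφ' u
    have b4 := hφ' z
    rw [dist_comm] at b3
    linarith
  have hball2 : ∀ u ∈ ball x' r, dist x u ≤ 2 * r := by
    intro u hu
    rw [mem_ball] at hu
    have := dist_triangle x x' u
    rw [dist_comm x x', dist_comm x' u] at this
    linarith
  have hx'2 : dist x x' ≤ 2 * r := by rw [dist_comm]; linarith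
  have hdiam : diam (f '' ball x' r) ≤ 2 * M₅ * s := by
    refine diam_le_of_forall_dist_le (by positivity) ?_
    rintro _ ⟨u, hu, rfl⟩ _ ⟨v, hv, rfl⟩
    have b1 := ha u (hball2 u hu)
    have b2 := ha v (hball2 v hv)
    have b3 := dist_triangle_left (f u) (f v) (f x)
    linarith
  -- (b)
  have hb : range f ∩ closedBall (f x') (τ * s) ⊆ f '' ball x' r := by
    rintro _ ⟨⟨u, rfl⟩, hu⟩
    rw [mem_closedBall] at hu
    have b0 : dist (f x) (f x') ≤ M₅ * s := ha x' hx'2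
    have b1 : dist (f x') (f u) ≤ τ' * s := by
      rw [dist_comm]
      exact hu.trans (mul_le_mul_of_nonneg_right (min_le_left _ _) hs0.le)
    have b2 : dist (f x) (f u) ≤ (M₅ + 1) * s := by
      have := dist_triangle (f x) (f x') (f u)
      rw [dist_comm (f x') (f u)] at this
      have h5 : τ * s ≤ 1 * s := mul_le_mul_of_nonneg_right (min_le_right _ _) hs0.le
      linarith
    have b3 : dist (g (f x')) (g (f u)) ≤ c₃ / 4 := t3 (f x') (f u) (by linarith) b2 b1
    have b4 : dist (φ (h x')) (φ (h u)) < c₃ := by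
      have := dist_triangle4 (φ (h x')) (g (f x')) (g (f u)) (φ (h u))
      have a3 := hφ' x'
      have a4 := hφ' u
      rw [dist_comm] at a3
      linarith
    have b5 : dist (h x') (h u) < c₁ := by
      by_contra hcon
      push Not at hcon
      exact absurd (l3 _ _ hcon) (not_le.2 b4)
    have b6 : c₂ / 2 ≤ dist (h u) (h z) := by
      have a1 := hfar x' hx'2
      have a2 := dist_triangle (h x') (h u) (h z)
      have a3 : c₁ ≤ c₂ / 2 := min_le_right _ _
      linarith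
    have b7 : dist x u ≤ M₂ * r := s2 u b6
    have b8 : dist u x' ≤ 1 / 2 * r := by
      refine s4 u x' (by nlinarith) (by nlinarith) ?_
      rw [dist_comm]
      exact b5.le.trans (min_le_left _ _)
    refine ⟨u, ?_, rfl⟩
    rw [mem_ball]
    linarith
  -- (c)
  have hM5s : 0 < (M₅ + 1) * s := by positivity
  have hτs : 0 < τ * s := by positivity
  have hτsD : τ * s ≤ D := by
    have a1 : s ≤ D := dle _ _
    have h5 : τ * s ≤ 1 * s := mul_le_mul_of_nonneg_right (min_le_right _ _) hs0.le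
    linarith
  have hd1 := hdens ((M₅ + 1) * s) hM5s hsρ
  have hu1 : μ.real (closedBall (f x) ((M₅ + 1) * s)) ≤ C * ((M₅ + 1) * s) ^ Q :=
    ENNReal.toReal_le_of_le_ofReal (by positivity) (hup _ _ hM5s)
  have hl1 : c * (τ * s) ^ Q ≤ μ.real (closedBall (f x') (τ * s)) :=
    (ENNReal.ofReal_le_iff_le_toReal (measure_ne_top _ _)).1
      ((hlo (f x') (τ * s) hτs hτsD).trans (measure_mono ball_subset_closedBall))
  have hq1 : q * (C * ((M₅ + 1) * s) ^ Q) = c * (τ * s) ^ Q / 2 := by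
    rw [hq, Real.mul_rpow hτpos.le hs0.le, Real.mul_rpow (by linarith) hs0.le]
    field_simp
  have hsub : closedBall (f x') (τ * s) ⊆ closedBall (f x) ((M₅ + 1) * s) := by
    intro w hw
    rw [mem_closedBall] at hw ⊢
    have b0 : dist (f x) (f x') ≤ M₅ * s := ha x' hx'2
    have := dist_triangle w (f x') (f x)
    rw [dist_comm (f x') (f x)] at this
    have h5 : τ * s ≤ 1 * s := mul_le_mul_of_nonneg_right (min_le_right _ _) hs0.le
    linarith
  have hm1 : μ.real (closedBall (f x') (τ * s)) ≤ μ.real (range f ∩ closedBall (f x') (τ * s)) +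
      μ.real (closedBall (f x) ((M₅ + 1) * s) \ range f) := by
    refine (measureReal_mono ?_).trans (measureReal_union_le _ _)
    intro w hw
    by_cases hwr : w ∈ range f
    · exact Or.inl ⟨hwr, hw⟩
    · exact Or.inr ⟨hsub hw, hwr⟩
  have hm2 : μ.real (range f ∩ closedBall (f x') (τ * s)) ≤ μ.real (f '' ball x' r) :=
    measureReal_mono hb
  have hkey : c * (τ * s) ^ Q / 2 ≤ μ.real (f '' ball x' r) := by
    have a1 := mul_le_mul_of_nonneg_left hu1 hqpos.le
    linarith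
  have hdQ : diam (f '' ball x' r) ^ Q ≤ (2 * M₅ * s) ^ Q :=
    Real.rpow_le_rpow diam_nonneg hdiam hQ.le
  refine hdQ.trans ?_
  have hfin : (2 * M₅ * s) ^ Q = 2 * (2 * M₅) ^ Q / (c * τ ^ Q) * (c * (τ * s) ^ Q / 2) := by
    rw [Real.mul_rpow hτpos.le hs0.le, Real.mul_rpow (by positivity : (0:ℝ) ≤ 2 * M₅) hs0.le]
    field_simp
  rw [hfin]
  exact mul_le_mul_of_nonneg_left hkey (by positivity)


end QSCoh.W
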