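import Pool.Agent.Lib.MP_cccab4_an.TM.W3
import Pool.Agent.Lib.MP_cccab4_an.T04

/-!
# TM, W4: discrete energy (T04 for Sgw)
-/

open MeasureTheory Metric Set Filter Topology
open scoped ENNReal NNReal

namespace QSCoh.W

variable {Z : Type*} [MetricSpace Z] [CompactSpace Z] [MeasurableSpace Z] [BorelSpace Z]
  {μ : Measure Z} {Q : ℝ}

/-- Discrete energy of an embedding over a closed set. -/
theorem Mprime {S G : Set (Z → Z)} {δ₀ : ℝ} {θ₀ : ℝ → ℝ} (H : Sp Z μ Q) (K : Sgw Z μ S G δ₀ θ₀) : ∃ C : ℝ, 0 < C ∧ ∀ f ∈ S,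
    ∀ W : Set Z, IsClosed W → ∀ δ : ℝ, 0 < δ →
    ∀ᶠ k in atTop, Ek Q k W f ≤ C * μ.real (f '' W) + δ := by
  have := finite_mu H
  obtain ⟨C₁, hC₁, hstar⟩ := star H K
  obtain ⟨n, hn⟩ := net_overlap H
  refine ⟨C₁ * (n + 1), by positivity, ?_⟩
  intro f hf W hW δ hδ
  have hcont := K.cont f hf
  obtain ⟨θ, -, hθ⟩ := K.qm f hf
  have hinj := hθ.inj
  obtain ⟨η, hη, hq⟩ := K.qs f hf
  obtain ⟨c, hc, hlow⟩ := low H hcont hinj hη hq
  have hemb : MeasurableEmbedding f := (hcont.isClosedEmbedding hinj).measurableEmbedding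
  set ν : Measure Z := μ.comap f with hν
  have hνa : ∀ A : Set Z, ν A = μ (f '' A) := fun A => hemb.comap_apply μ A
  have hνfin : IsFiniteMeasure ν := ⟨by rw [hνa]; exact measure_lt_top μ _⟩
  have hνr : ∀ A : Set Z, ν.real A = μ.real (f '' A) := fun A => by
    unfold Measure.real
    rw [hνa]
  set P : ℝ → Z → Prop := fun r x' => diam (f '' ball x' r) ^ Q ≤ C₁ * μ.real (f '' ball x' r)
    with hP
  set GG : ℕ → Set Z := fun k => ⋂ (r : ℝ) (x' : Z) (_ : 0 < r ∧ r ≤ 4 * ep k ∧ ¬ P r x'),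
    {x | r ≤ dist x' x} with hGG
  have hmem : ∀ k x, x ∈ GG k ↔ ∀ (r : ℝ) (x' : Z), (0 < r ∧ r ≤ 4 * ep k ∧ ¬ P r x') →
      r ≤ dist x' x := by
    intro k x
    simp only [hGG, mem_iInter]
    rfl
  have hGclosed : ∀ k, IsClosed (GG k) := fun k =>
    isClosed_iInter fun r => isClosed_iInter fun x' => isClosed_iInter fun _ =>
      isClosed_le continuous_const (continuous_const.dist continuous_id)
  have hGmono : Monotone GG := by
    intro k k' hk x hx
    rw [hmem] at hx ⊢
    intro r x' h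
    exact hx r x' ⟨h.1, h.2.1.trans (by linarith [t04_ep_anti hk]), h.2.2⟩
  obtain ⟨B, hB0, hB⟩ := K.rig f hf
  have hGunion : ∀ x, Dens μ (range f) (f x) → x ∉ B → x ∈ ⋃ k, GG k := by
    intro x hx hxB
    obtain ⟨r₀, hr₀, h⟩ := hstar f hf x hx (hB x hxB)
    obtain ⟨k, hk⟩ := ((t04_ep_tendsto).eventually (gt_mem_nhds hr₀)).exists
    rw [mem_iUnion]
    refine ⟨k, ?_⟩
    rw [hmem]
    intro r x' ⟨hr, hrk, hnP⟩
    by_contra hcon
    exact hnP (h r hr (lt_of_le_of_lt hrk hk) x' (not_le.1 hcon))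
  have hnull : ν (⋂ k, (GG k)ᶜ) = 0 := by
    rw [hνa]
    have h1 := dens_ae H (A := range f) (isCompact_range hcont).isClosed
    rw [ae_iff] at h1
    refine measure_mono_null ?_ (measure_union_null h1 hB0)
    rintro _ ⟨x, hx, rfl⟩
    by_cases hxB : x ∈ B
    · exact Or.inr ⟨x, hxB, rfl⟩
    refine Or.inl ?_
    intro hcon
    have h2 := hGunion x (hcon ⟨x, rfl⟩) hxB
    rw [mem_iInter] at hx
    rw [mem_iUnion] at h2
    obtain ⟨k, hk⟩ := h2
    exact hx k hk
  have hlim1 : Tendsto (fun k => ν.real (GG k)ᶜ) atTop (𝓝 0) := by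
    have h1 := tendsto_measure_iInter_atTop (μ := ν) (s := fun k => (GG k)ᶜ)
      (fun k => (hGclosed k).measurableSet.compl.nullMeasurableSet)
      (fun k k' hk => compl_subset_compl.2 (hGmono hk)) ⟨0, measure_ne_top _ _⟩
    rw [hnull] at h1
    have h2 := (ENNReal.tendsto_toReal ENNReal.zero_ne_top).comp h1
    rw [ENNReal.toReal_zero] at h2
    exact h2
  have hlim2 : Tendsto (fun k => ν.real (cthickening (4 * ep k) W)) atTop (𝓝 (ν.real W)) := by
    have h1 := (tendsto_measure_cthickening_of_isClosed (μ := ν) (s := W)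
      ⟨1, one_pos, measure_ne_top _ _⟩ hW).comp t04_ep_tendsto
    exact (ENNReal.tendsto_toReal (measure_ne_top ν W)).comp h1
  have hD := H.hD
  have hbound : ∀ k, 4 * ep k ≤ diam (univ : Set Z) → Ek Q k W f ≤
      C₁ * (n * ν.real (cthickening (4 * ep k) W)) + c⁻¹ * (n * ν.real (GG k)ᶜ) := by
    intro k hk
    have hr : 0 < 4 * ep k := by have := t04_ep_pos k; positivity
    obtain ⟨A, hAn, hAW, hEA⟩ : ∃ A : Finset Z, A ⊆ net Z k ∧ (∀ x ∈ A, x ∈ W) ∧
        Ek Q k W f = ∑ x ∈ A, diam (f '' ball x (4 * ep k)) ^ Q := by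
      classical
      refine ⟨(net Z k).filter (fun x => x ∈ W), Finset.filter_subset _ _,
        fun x hx => (Finset.mem_filter.1 hx).2, ?_⟩
      unfold Ek
      refine Finset.sum_congr ?_ fun _ _ => rfl
      ext x
      simp only [Finset.mem_filter]
    rw [hEA]
    have hterm : ∀ x : Z, diam (f '' ball x (4 * ep k)) ^ Q ≤
        C₁ * ν.real (ball x (4 * ep k)) + c⁻¹ * ν.real (ball x (4 * ep k) ∩ (GG k)ᶜ) := by
      intro x
      have n1 : 0 ≤ ν.real (ball x (4 * ep k)) := measureReal_nonneg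
      have n2 : 0 ≤ ν.real (ball x (4 * ep k) ∩ (GG k)ᶜ) := measureReal_nonneg
      have n3 : 0 ≤ c⁻¹ := by positivity
      by_cases h : (ball x (4 * ep k) ∩ GG k).Nonempty
      · obtain ⟨y, hy1, hy2⟩ := h
        have hPx : P (4 * ep k) x := by
          by_contra hcon
          have h3 := (hmem k y).1 hy2 (4 * ep k) x ⟨hr, le_rfl, hcon⟩
          rw [mem_ball, dist_comm] at hy1
          linarith
        have h4 : diam (f '' ball x (4 * ep k)) ^ Q ≤ C₁ * ν.real (ball x (4 * ep k)) := by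
          rw [hνr]
          exact hPx
        have h5 : 0 ≤ c⁻¹ * ν.real (ball x (4 * ep k) ∩ (GG k)ᶜ) := by positivity
        linarith
      · have h3 : ball x (4 * ep k) ∩ (GG k)ᶜ = ball x (4 * ep k) := by
          rw [inter_eq_left]
          intro y hy hy2
          exact h ⟨y, hy, hy2⟩
        rw [h3]
        have h4 := hlow x (4 * ep k) hr hk
        rw [← hνr] at h4
        have h5 : diam (f '' ball x (4 * ep k)) ^ Q ≤ c⁻¹ * ν.real (ball x (4 * ep k)) := by
          rw [inv_mul_eq_div, le_div_iff₀ hc, mul_comm]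
          exact h4
        have h6 : 0 ≤ C₁ * ν.real (ball x (4 * ep k)) := by positivity
        linarith
    have hover : ∀ (A : Finset Z), A ⊆ net Z k → ∀ (T : Set Z) z, ∀ A' ⊆ A,
        (∀ x ∈ A', z ∈ ball x (4 * ep k) ∩ T) → A'.card ≤ n := by
      intro A hA T z A' hA' hz
      refine hn k z A' (hA'.trans hA) fun x hx => ?_
      exact le_of_lt (hz x hx).1
    refine (Finset.sum_le_sum fun x _ => hterm x).trans ?_
    rw [Finset.sum_add_distrib, ← Finset.mul_sum, ← Finset.mul_sum]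
    have s1 := t04_sum_real ν A (fun x => ball x (4 * ep k) ∩ univ) (fun x => measurableSet_ball.inter MeasurableSet.univ)
      (cthickening (4 * ep k) W) isClosed_cthickening.measurableSet (by
        intro x hx y hy
        exact mem_cthickening_of_dist_le y x _ _ (hAW x hx) (le_of_lt hy.1)) n
      (hover A hAn univ)
    have s2 := t04_sum_real ν A (fun x => ball x (4 * ep k) ∩ (GG k)ᶜ)
      (fun x => measurableSet_ball.inter (hGclosed k).measurableSet.compl)
      ((GG k)ᶜ) (hGclosed k).measurableSet.compl (fun x _ => inter_subset_right) n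
      (hover A hAn _)
    simp only [inter_univ] at s1
    have n3 : 0 ≤ c⁻¹ := by positivity
    exact add_le_add (mul_le_mul_of_nonneg_left s1 hC₁.le) (mul_le_mul_of_nonneg_left s2 n3)
  have hlim : Tendsto (fun k => C₁ * (n * ν.real (cthickening (4 * ep k) W)) +
      c⁻¹ * (n * ν.real (GG k)ᶜ)) atTop (𝓝 (C₁ * (n * ν.real W) + c⁻¹ * (n * 0))) :=
    ((hlim2.const_mul _).const_mul _).add ((hlim1.const_mul _).const_mul _)
  have hlt : C₁ * (n * ν.real W) + c⁻¹ * (n * 0) < C₁ * (n + 1) * μ.real (f '' W) + δ := by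
    rw [← hνr W]
    have n1 : 0 ≤ ν.real W := measureReal_nonneg
    have : 0 ≤ C₁ * ν.real W := by positivity
    nlinarith
  filter_upwards [hlim.eventually (gt_mem_nhds hlt),
    t04_ep_tendsto.eventually (gt_mem_nhds hD)] with k h1 h2
  exact (hbound k h2.le).trans h1.le


end QSCoh.W
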