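import Pool.Agent.Lib.MP_cccab4_an.TM.W4
import Pool.Agent.Lib.MP_cccab4_an.T05
import Pool.Agent.Lib.MP_cccab4_an.T06
import Pool.Agent.Lib.MP_cccab4_an.T07
import Pool.Agent.Lib.MP_cccab4_an.S15

/-!
# TM, W5: test functions (T05, T07 for Sgw)
-/

open MeasureTheory Metric Set Filter Topology
open scoped ENNReal NNReal

namespace QSCoh.W

variable {Z : Type*} [MetricSpace Z] [CompactSpace Z] [MeasurableSpace Z] [BorelSpace Z]
  {μ : Measure Z} {Q : ℝ}

/-- The truncated logarithms, suitably normalised, are in the test class. -/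
theorem testfun {S G : Set (Z → Z)} {δ₀ : ℝ} {θ₀ : ℝ → ℝ} (H : Sp Z μ Q) (K : Sgw Z μ S G δ₀ θ₀) : ∃ C : ℝ, 0 < C ∧
    ∀ (a : Z) (N : ℝ), 1 ≤ N →
      (fun z => LL (diam (univ : Set Z)) a N z / (C * (N + 1)) ^ (1 / Q)) ∈ UU Q S := by
  classical
  have hfin := finite_mu H
  obtain ⟨C₁, hC₁, hM⟩ := Mprime H K
  obtain ⟨C₂, hC₂, hmass⟩ := mass_upper H
  have hQ := H.hQ
  have hQ0 : 0 < Q := by linarith
  obtain ⟨D, hDdef⟩ : ∃ D : ℝ, D = diam (univ : Set Z) := ⟨_, rfl⟩
  have hD : 0 < D := by rw [hDdef]; exact H.hD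
  have hle : ∀ x y : Z, dist x y ≤ D := fun x y => by
    rw [hDdef]
    exact dist_le_diam_of_mem isBounded_of_compactSpace (mem_univ _) (mem_univ _)
  have hC₂0 : 0 < C₂ := by linarith
  refine ⟨2 * (4 ^ Q * C₁ * C₂ + 1), by positivity, fun a N hN => ?_⟩
  rw [← hDdef]
  have hN0 : 0 ≤ N := by linarith
  obtain ⟨hLc, hL0, hLN, hLN', hLip⟩ := LL_facts hD a hN0 hle
  obtain ⟨CC, hCC⟩ : ∃ CC : ℝ, CC = 2 * (4 ^ Q * C₁ * C₂ + 1) * (N + 1) := ⟨_, rfl⟩
  have hCC0 : 0 < CC := by
    rw [hCC]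
    positivity
  rw [← hCC]
  obtain ⟨c, hc⟩ : ∃ c : ℝ, c = CC ^ (1 / Q) := ⟨_, rfl⟩
  have hc0 : 0 < c := by
    rw [hc]
    exact Real.rpow_pos_of_pos hCC0 _
  have hcQ : c ^ Q = CC := by
    rw [hc, ← Real.rpow_mul hCC0.le, one_div, inv_mul_cancel₀ hQ0.ne', Real.rpow_one]
  rw [← hc]
  refine ⟨hLc.div_const _, fun f hf => ?_⟩
  have hfc := K.cont f hf
  apply Eventually.frequently
  obtain ⟨M, hMdef⟩ : ∃ M : ℕ, M = ⌈N / Real.log 2⌉₊ := ⟨_, rfl⟩
  have hlog2 : 0 < Real.log 2 := Real.log_pos (by norm_num)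
  have hM1 : D / 2 ^ M ≤ D * Real.exp (-N) := by
    have h1 : N ≤ M * Real.log 2 := by
      have h2 := Nat.le_ceil (N / Real.log 2)
      rw [← hMdef, div_le_iff₀ hlog2] at h2
      exact h2
    have h2 : Real.exp N ≤ 2 ^ M := by
      calc Real.exp N ≤ Real.exp (M * Real.log 2) := Real.exp_le_exp.2 h1
        _ = 2 ^ M := by rw [Real.exp_nat_mul, Real.exp_log (by norm_num)]
    rw [Real.exp_neg, ← div_eq_mul_inv]
    exact div_le_div_of_nonneg_left hD.le (Real.exp_pos _) h2
  have hM2 : (M : ℝ) + 1 ≤ 2 * (N + 1) := by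
    have h1 := Nat.ceil_lt_add_one (by positivity : 0 ≤ N / Real.log 2)
    rw [← hMdef] at h1
    have h2 : N / Real.log 2 ≤ 2 * N := by
      rw [div_le_iff₀ hlog2]
      have := Real.log_two_gt_d9
      nlinarith
    linarith
  obtain ⟨W, hW⟩ : ∃ W : ℕ → Set Z, W = fun m => {x | D / 2 ^ (m + 1) ≤ dist (f x) a ∧
    dist (f x) a ≤ D / 2 ^ m} := ⟨_, rfl⟩
  have hWc : ∀ m, IsClosed (W m) := by
    intro m
    rw [hW]
    exact (isClosed_le continuous_const (hfc.dist continuous_const)).inter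
      (isClosed_le (hfc.dist continuous_const) continuous_const)
  have hEv : ∀ᶠ k in atTop, ∀ m ∈ Finset.range (M + 1),
      Ek Q k (W m) f ≤ C₁ * μ.real (f '' W m) + (D / 2 ^ (m + 2)) ^ Q := by
    rw [Filter.eventually_all_finset]
    intro m _
    exact hM f hf (W m) (hWc m) _ (by positivity)
  filter_upwards [T05_small hfc (by positivity : 0 < D / 2 ^ (M + 2)), hEv] with k hk hE
  -- one term
  have hterm : ∀ x : Z, diam (((fun z => LL D a N z / c) ∘ f) '' ball x (4 * ep k)) ^ Q ≤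
      ∑ m ∈ Finset.range (M + 1), if x ∈ W m then
        ((2 ^ (m + 2) / D) * diam (f '' ball x (4 * ep k)) / c) ^ Q else 0 := by
    intro x
    have hxb : x ∈ ball x (4 * ep k) := by
      apply mem_ball_self
      unfold ep
      positivity
    have hnn : ∀ m ∈ Finset.range (M + 1), 0 ≤ if x ∈ W m then
        ((2 ^ (m + 2) / D) * diam (f '' ball x (4 * ep k)) / c) ^ Q else 0 := by
      intro m _
      split_ifs
      · have := diam_nonneg (s := f '' ball x (4 * ep k))
        positivity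
      · exact le_rfl
    by_cases hx : dist (f x) a < D / 2 ^ (M + 1)
    · have h1 : diam (((fun z => LL D a N z / c) ∘ f) '' ball x (4 * ep k)) = 0 := by
        apply le_antisymm _ diam_nonneg
        apply diam_le_of_forall_dist_le le_rfl
        have h2 : ∀ y ∈ ball x (4 * ep k), LL D a N (f y) = N := by
          intro y hy
          apply hLN'
          refine le_trans ?_ hM1
          have h3 := hk x y hy x hxb
          have h4 := dist_triangle (f y) (f x) a
          have h5 : D / 2 ^ (M + 1) = D / 2 ^ M / 2 := by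
            rw [pow_succ]
            field_simp
          have h6 : D / 2 ^ (M + 2) = D / 2 ^ M / 4 := by
            rw [pow_add]
            norm_num
            field_simp
          have h7 : 0 < D / 2 ^ M := by positivity
          linarith
        rintro _ ⟨y, hy, rfl⟩ _ ⟨z, hz, rfl⟩
        simp only [Function.comp]
        rw [h2 y hy, h2 z hz, dist_self]
      rw [h1, Real.zero_rpow hQ0.ne']
      exact Finset.sum_nonneg hnn
    · push Not at hx
      obtain ⟨m, hm, hm1, hm2⟩ := T05_layer (hle (f x) a) hx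
      have hmr : m ∈ Finset.range (M + 1) := by
        rw [Finset.mem_range]
        omega
      refine le_trans ?_ (Finset.single_le_sum hnn hmr)
      have hxW : x ∈ W m := by
        rw [hW]
        exact ⟨hm1, hm2⟩
      rw [if_pos hxW]
      apply Real.rpow_le_rpow diam_nonneg _ hQ0.le
      have hd0 := diam_nonneg (s := f '' ball x (4 * ep k))
      apply diam_le_of_forall_dist_le (by positivity)
      have hlow : ∀ y ∈ ball x (4 * ep k), D / 2 ^ (m + 2) ≤ dist (f y) a := by
        intro y hy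
        have h3 := hk x x hxb y hy
        have h4 := dist_triangle (f x) (f y) a
        have h5 : D / 2 ^ (m + 1) = 2 * (D / 2 ^ (m + 2)) := by
          rw [pow_succ 2 (m + 1)]
          field_simp
        have h6 : D / 2 ^ (M + 2) ≤ D / 2 ^ (m + 2) := by
          apply div_le_div_of_nonneg_left hD.le (by positivity)
          exact pow_le_pow_right₀ (by norm_num) (by omega)
        linarith
      rintro _ ⟨y, hy, rfl⟩ _ ⟨z, hz, rfl⟩
      simp only [Function.comp]
      rw [Real.dist_eq, ← sub_div, abs_div, abs_of_pos hc0]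
      apply div_le_div_of_nonneg_right _ hc0.le
      refine (hLip (D / 2 ^ (m + 2)) (by positivity) (f y) (f z) (hlow y hy) (hlow z hz)).trans ?_
      have h7 : dist (f y) (f z) ≤ diam (f '' ball x (4 * ep k)) :=
        dist_le_diam_of_mem isBounded_of_compactSpace (mem_image_of_mem f hy)
          (mem_image_of_mem f hz)
      calc dist (f y) (f z) / (D / 2 ^ (m + 2)) = 2 ^ (m + 2) / D * dist (f y) (f z) := by
            field_simp
        _ ≤ _ := mul_le_mul_of_nonneg_left h7 (by positivity)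
  -- the sum
  have hsum : Ek Q k univ ((fun z => LL D a N z / c) ∘ f) ≤
      ∑ m ∈ Finset.range (M + 1), (2 ^ (m + 2) / D) ^ Q / CC * Ek Q k (W m) f := by
    rw [T05_Ek_univ]
    calc ∑ x ∈ net Z k, diam (((fun z => LL D a N z / c) ∘ f) '' ball x (4 * ep k)) ^ Q
        ≤ ∑ x ∈ net Z k, ∑ m ∈ Finset.range (M + 1), (if x ∈ W m then
          ((2 ^ (m + 2) / D) * diam (f '' ball x (4 * ep k)) / c) ^ Q else 0) :=
          Finset.sum_le_sum fun x _ => hterm x
      _ = ∑ m ∈ Finset.range (M + 1), ∑ x ∈ net Z k, (if x ∈ W m then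
          ((2 ^ (m + 2) / D) * diam (f '' ball x (4 * ep k)) / c) ^ Q else 0) :=
          Finset.sum_comm
      _ = ∑ m ∈ Finset.range (M + 1), (2 ^ (m + 2) / D) ^ Q / CC *
            Ek Q k (W m) f := by
          refine Finset.sum_congr rfl fun m _ => ?_
          unfold Ek
          rw [← Finset.sum_filter, Finset.mul_sum]
          refine Finset.sum_congr rfl fun x _ => ?_
          have hd0 := diam_nonneg (s := f '' ball x (4 * ep k))
          rw [Real.div_rpow (by positivity) hc0.le, hcQ, Real.mul_rpow (by positivity) hd0]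
          ring
  refine hsum.trans ?_
  have hone : ∀ m ∈ Finset.range (M + 1), (2 ^ (m + 2) / D) ^ Q / CC * Ek Q k (W m) f ≤
      (4 ^ Q * C₁ * C₂ + 1) / CC := by
    intro m hm
    have h1 := hE m hm
    have h2 : μ.real (f '' W m) ≤ C₂ * (D / 2 ^ m) ^ Q := by
      have e1 : f '' W m ⊆ closedBall a (D / 2 ^ m) := by
        rintro _ ⟨y, hy, rfl⟩
        rw [hW] at hy
        exact hy.2
      have e2 := (measure_mono e1).trans (hmass a (D / 2 ^ m) (by positivity))
      exact ENNReal.toReal_le_of_le_ofReal (by positivity) e2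
    have h3 : Ek Q k (W m) f ≤ C₁ * (C₂ * (D / 2 ^ m) ^ Q) + (D / 2 ^ (m + 2)) ^ Q := by
      refine h1.trans ?_
      gcongr
    have h4 : (0 : ℝ) < (2 ^ (m + 2) / D) ^ Q := by positivity
    have h5 : ((2 : ℝ) ^ (m + 2) / D) ^ Q * (D / 2 ^ m) ^ Q = 4 ^ Q := by
      rw [← Real.mul_rpow (by positivity) (by positivity)]
      congr 1
      rw [pow_add]
      field_simp
      norm_num
    have h6 : ((2 : ℝ) ^ (m + 2) / D) ^ Q * (D / 2 ^ (m + 2)) ^ Q = 1 := by
      rw [← Real.mul_rpow (by positivity) (by positivity)]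
      have : (2 : ℝ) ^ (m + 2) / D * (D / 2 ^ (m + 2)) = 1 := by field_simp
      rw [this, Real.one_rpow]
    calc (2 ^ (m + 2) / D) ^ Q / CC * Ek Q k (W m) f
        ≤ (2 ^ (m + 2) / D) ^ Q / CC * (C₁ * (C₂ * (D / 2 ^ m) ^ Q) + (D / 2 ^ (m + 2)) ^ Q) :=
          mul_le_mul_of_nonneg_left h3 (by positivity)
      _ = (C₁ * C₂ * ((2 ^ (m + 2) / D) ^ Q * (D / 2 ^ m) ^ Q) +
            (2 ^ (m + 2) / D) ^ Q * (D / 2 ^ (m + 2)) ^ Q) / CC := by ring
      _ = (4 ^ Q * C₁ * C₂ + 1) / CC := by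
          rw [h5, h6]
          ring
  calc ∑ m ∈ Finset.range (M + 1), (2 ^ (m + 2) / D) ^ Q / CC * Ek Q k (W m) f
      ≤ ∑ _m ∈ Finset.range (M + 1), (4 ^ Q * C₁ * C₂ + 1) / CC := Finset.sum_le_sum hone
    _ = ((M : ℝ) + 1) * ((4 ^ Q * C₁ * C₂ + 1) / CC) := by
        rw [Finset.sum_const, Finset.card_range, nsmul_eq_mul]
        push_cast
        ring
    _ ≤ (2 * (N + 1)) * ((4 ^ Q * C₁ * C₂ + 1) / CC) :=
        mul_le_mul_of_nonneg_right hM2 (by positivity)
    _ = 1 := by
        rw [hCC]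
        have h1 : (0 : ℝ) < 4 ^ Q * C₁ * C₂ + 1 := by positivity
        have h2 : (0 : ℝ) < N + 1 := by linarith
        field_simp


/-- If `f` is near the identity then it does not contract a fixed ball too much (in measure). -/
theorem cprime {S G : Set (Z → Z)} {δ₀ : ℝ} {θ₀ : ℝ → ℝ} (H : Sp Z μ Q) (K : Sgw Z μ S G δ₀ θ₀) (x₀ : Z) {r : ℝ} (hr : 0 < r) (n : ℝ) :
    ∃ c : ℝ, 0 < c ∧ ∀ f ∈ S, Near μ Q S f id n → c ≤ μ.real (f '' closedBall x₀ r) := by
  have := finite_mu H
  have hQ1 : 1 < Q := H.hQ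
  have hQ : 0 < Q := by linarith
  obtain ⟨r', C₁, hr', hrr, hC₁, hloc⟩ := loc H x₀ hr
  obtain ⟨C₂, hC₂, hM⟩ := Mprime H K
  obtain ⟨C₃, hC₃, htest⟩ := testfun H K
  obtain ⟨C₄, hC₄, hint⟩ := logint H
  set D := diam (univ : Set Z) with hD
  have hDpos : 0 < D := H.hD
  have hle : ∀ x y : Z, dist x y ≤ D := fun x y =>
    dist_le_diam_of_mem isBounded_of_compactSpace (mem_univ _) (mem_univ _)
  set m' := μ.real (closedBall x₀ r') / 2 with hm'
  have hm'pos : 0 < m' := by
    have h1 := mass_ball_pos H x₀ hr'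
    have h2 : μ.real (ball x₀ r') ≤ μ.real (closedBall x₀ r') := measureReal_mono ball_subset_closedBall
    linarith
  -- choose N
  obtain ⟨N, hN1, hN⟩ : ∃ N : ℝ, 1 ≤ N ∧ n < (N * m' - C₄) / (C₃ * (N + 1)) ^ (1 / Q) := by
    have h1Q : 1 / Q < 1 := by rw [div_lt_one hQ]; exact hQ1
    -- (N m' - C₄) / (C₃ (N+1))^(1/Q) → ∞
    have ht : Tendsto (fun N : ℝ => (N * m' - C₄) / (C₃ * (N + 1)) ^ (1 / Q)) atTop atTop := by
      have h2 : Tendsto (fun N : ℝ => (m' / 4) / (C₃ ^ (1 / Q)) * (N + 1) ^ (1 - 1 / Q)) atTop atTop := by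
        refine Tendsto.const_mul_atTop (by positivity) ?_
        exact (tendsto_rpow_atTop (by linarith)).comp (tendsto_atTop_add_const_right _ _ tendsto_id)
      refine tendsto_atTop_mono' _ ?_ h2
      filter_upwards [eventually_ge_atTop (1 : ℝ), eventually_ge_atTop (4 * C₄ / m')] with N hN hN'
      have h3 : 4 * C₄ ≤ N * m' := by
        have := (div_le_iff₀ hm'pos).1 hN'
        linarith
      have h4 : (m' / 4) * (N + 1) ≤ N * m' - C₄ := by nlinarith
      have hNp : 0 < N + 1 := by linarith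
      rw [Real.mul_rpow hC₃.le hNp.le, Real.rpow_sub hNp, Real.rpow_one]
      rw [div_mul_div_comm, ]
      exact div_le_div_of_nonneg_right h4 (by positivity)
    obtain ⟨N, hN⟩ := ((ht.eventually_gt_atTop n).and (eventually_ge_atTop (1:ℝ))).exists
    exact ⟨N, hN.2, hN.1⟩
  set σ₁ := (D * Real.exp (-N) / C₁) ^ Q with hσ₁
  have hσ₁pos : 0 < σ₁ := by positivity
  refine ⟨σ₁ / C₂ / 2, by positivity, fun f hf hn => ?_⟩
  by_contra hcon
  push Not at hcon
  have hfc := K.cont f hf
  -- eventually the local energy is ≤ σ₁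
  have hev : ∀ᶠ k in atTop, Ek Q k (closedBall x₀ r) f ≤ σ₁ := by
    filter_upwards [hM f hf (closedBall x₀ r) isClosed_closedBall (σ₁ / 2) (by positivity)] with k hk
    have h1 : C₂ * μ.real (f '' closedBall x₀ r) ≤ C₂ * (σ₁ / C₂ / 2) :=
      mul_le_mul_of_nonneg_left hcon.le hC₂.le
    have h2 : C₂ * (σ₁ / C₂ / 2) = σ₁ / 2 := by field_simp
    linarith
  obtain ⟨b, hb⟩ := hloc f hfc σ₁ hσ₁pos hev.frequently
  have hrad : C₁ * σ₁ ^ (1 / Q) = D * Real.exp (-N) := by
    rw [hσ₁, ← Real.rpow_mul (by positivity), mul_one_div_cancel hQ.ne', Real.rpow_one]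
    field_simp
  rw [hrad] at hb
  obtain ⟨hLc, hL0, hLN, hLe, -⟩ := LL_facts hDpos b (N := N) (by linarith) hle
  set A := (C₃ * (N + 1)) ^ (1 / Q) with hA
  have hApos : 0 < A := by positivity
  have hnear := hn _ (htest b N hN1)
  have hi2 : ∫ x, LL D b N (id x) / A ∂μ ≤ C₄ / A := by
    rw [integral_div]
    exact div_le_div_of_nonneg_right (hint b N (by linarith)) hApos.le
  have hi1 : N * m' / A ≤ ∫ x, LL D b N (f x) / A ∂μ := by
    rw [integral_div]
    refine div_le_div_of_nonneg_right ?_ hApos.le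
    set P := {x ∈ closedBall x₀ r' | dist (f x) b ≤ D * Real.exp (-N)} with hP
    have hPm : MeasurableSet P := by
      refine (isClosed_closedBall.inter (isClosed_le (hfc.dist continuous_const)
        continuous_const)).measurableSet
    calc N * m' ≤ N * μ.real P := mul_le_mul_of_nonneg_left hb (by linarith)
      _ = ∫ x in P, N ∂μ := by rw [setIntegral_const, smul_eq_mul, mul_comm]
      _ ≤ ∫ x in P, LL D b N (f x) ∂μ := by
          refine setIntegral_mono_on (by simp) ?_ hPm ?_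
          · exact ((hLc.comp hfc).integrable_of_hasCompactSupport
              (HasCompactSupport.of_compactSpace _)).integrableOn
          · intro x hx
            exact (hLe _ hx.2).ge
      _ ≤ ∫ x, LL D b N (f x) ∂μ := by
          refine setIntegral_le_integral ((hLc.comp hfc).integrable_of_hasCompactSupport
              (HasCompactSupport.of_compactSpace _)) (Eventually.of_forall fun x => hL0 _)
  have h9 : (N * m' - C₄) / A ≤ n := by
    have := (abs_le.1 hnear).2
    rw [sub_div]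
    linarith
  linarith


end QSCoh.W
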