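import Pool.Agent.Lib.MP_cccab4_an.TM.W0
import Pool.Agent.Lib.MP_cccab4_an.T08
import Pool.Agent.Lib.MP_cccab4_an.T09
import Pool.Agent.Lib.MP_cccab4_an.T10
import Pool.Agent.Lib.MP_cccab4_an.T11
import Pool.Agent.Lib.MP_cccab4_an.A09

/-!
# TM, W6: normalisation, closeness (T08, T09, T10, T11 for Sgw)
-/

open MeasureTheory Metric Set Filter Topology
open scoped ENNReal NNReal

namespace QSCoh.W

variable {Z : Type*} [MetricSpace Z] [CompactSpace Z] [MeasurableSpace Z] [BorelSpace Z]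
  {μ : Measure Z} {Q : ℝ}

theorem fin {S G : Set (Z → Z)} {δ₀ : ℝ} {θ₀ : ℝ → ℝ} (H : Sp Z μ Q) (K : Sgw Z μ S G δ₀ θ₀) {f : Z → Z} (hf : f ∈ S) :
    ∃ r > 0, ∀ a : Z, μ.real {x | dist (f x) a < r} ≤ μ.real univ / 2 := by
  have := finite_mu H
  have hpos := mass_pos H
  have hfc := K.cont f hf
  obtain ⟨θ, -, hqm⟩ := K.qm f hf
  by_contra hcon
  push Not at hcon
  have hp : ∀ j : ℕ, (0 : ℝ) < 1 / (j + 1) := fun j => by positivity
  choose a ha using fun j : ℕ => hcon (1 / ((j : ℝ) + 1)) (hp j)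
  obtain ⟨b, -, φ, hφ, hb⟩ := isCompact_univ.tendsto_subseq (fun j => mem_univ (a j))
  have hbig : ∀ ρ : ℝ, 0 < ρ → μ.real univ / 2 ≤ μ.real {x | dist (f x) b ≤ ρ} := by
    intro ρ hρ
    have h1 : ∀ᶠ j in atTop, dist (a (φ j)) b < ρ / 2 := by
      have := (Metric.tendsto_atTop.1 hb) (ρ / 2) (by linarith)
      obtain ⟨N, hN⟩ := this
      exact eventually_atTop.2 ⟨N, fun n hn => hN n hn⟩
    have h2 : ∀ᶠ j : ℕ in atTop, 1 / (((φ j : ℕ) : ℝ) + 1) < ρ / 2 :=
      ((tendsto_one_div_add_atTop_nhds_zero_nat (𝕜 := ℝ)).comp hφ.tendsto_atTop).eventually_lt_const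
        (by linarith)
    obtain ⟨j, hj1, hj2⟩ := (h1.and h2).exists
    refine (ha (φ j)).le.trans (measureReal_mono fun x hx => ?_)
    have h3 : dist (f x) (a (φ j)) < 1 / (((φ j : ℕ) : ℝ) + 1) := hx
    have h4 := dist_triangle (f x) (a (φ j)) b
    show dist (f x) b ≤ ρ
    linarith
  -- pass to the limit
  have hlim : Tendsto (fun n : ℕ => μ {x | dist (f x) b ≤ 1 / ((n : ℝ) + 1)}) atTop
      (𝓝 (μ (⋂ n : ℕ, {x | dist (f x) b ≤ 1 / ((n : ℝ) + 1)}))) := by
    refine tendsto_measure_iInter_atTop (fun n => ?_) ?_ ⟨0, measure_ne_top _ _⟩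
    · exact (isClosed_le (hfc.dist continuous_const) continuous_const).nullMeasurableSet
    · intro m n hmn x hx
      have hx' : dist (f x) b ≤ 1 / ((n : ℝ) + 1) := hx
      show dist (f x) b ≤ 1 / ((m : ℝ) + 1)
      refine hx'.trans ?_
      have : (m : ℝ) ≤ n := by exact_mod_cast hmn
      exact one_div_le_one_div_of_le (by positivity) (by linarith)
  have hzero : μ (⋂ n : ℕ, {x | dist (f x) b ≤ 1 / ((n : ℝ) + 1)}) = 0 := by
    have hsub : (⋂ n : ℕ, {x | dist (f x) b ≤ 1 / ((n : ℝ) + 1)}) ⊆ f ⁻¹' {b} := by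
      intro x hx
      rw [mem_iInter] at hx
      have h5 : dist (f x) b ≤ 0 :=
        ge_of_tendsto' (tendsto_one_div_add_atTop_nhds_zero_nat (𝕜 := ℝ)) (fun n => hx n)
      exact dist_le_zero.1 h5
    refine measure_mono_null hsub ?_
    by_cases he : ∃ x, f x = b
    · obtain ⟨x, hx⟩ := he
      have : f ⁻¹' {b} = {x} := by
        ext y
        simp only [mem_preimage, mem_singleton_iff]
        exact ⟨fun h => hqm.inj (h.trans hx.symm), fun h => by rw [h, hx]⟩
      rw [this]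
      exact mass_point H x
    · have : f ⁻¹' {b} = ∅ := by
        ext y
        simp only [mem_preimage, mem_singleton_iff, mem_empty_iff_false, iff_false]
        exact fun h => he ⟨y, h⟩
      rw [this]
      exact measure_empty
  rw [hzero] at hlim
  have hge : ENNReal.ofReal (μ.real univ / 2) ≤ 0 := by
    refine ge_of_tendsto' hlim fun n => ?_
    exact (ENNReal.ofReal_le_iff_le_toReal (measure_ne_top _ _)).2
      (hbig (1 / ((n : ℝ) + 1)) (hp n))
  simp only [nonpos_iff_eq_zero, ENNReal.ofReal_eq_zero] at hge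
  linarith


theorem norm {S G : Set (Z → Z)} {δ₀ : ℝ} {θ₀ : ℝ → ℝ} (H : Sp Z μ Q) (K : Sgw Z μ S G δ₀ θ₀) : ∃ r > 0, ∀ t ∈ S, ∃ g ∈ G, ∀ a : Z,
    μ.real {x | dist (g (t x)) a < r} ≤ μ.real univ / 2 := by
  have := finite_mu H
  have hpos := mass_pos H
  obtain ⟨σ₁, hσ₁, c₁, hc₁, hz1⟩ := zoom1 K.grp (M := 1) one_pos
  obtain ⟨σ₂, hσ₂, M₂, hM₂, hz2⟩ := zoom2 K.grp (κ := c₁ / 2) (by linarith)
  obtain ⟨σ₃, hσ₃, τ, hτ, hz4⟩ := zoom4 K.grp (M := M₂) hM₂ (ε := 1 / 4) (by norm_num)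
  set D := diam (univ : Set Z) with hD
  have hDpos : 0 < D := H.hD
  have hle : ∀ x y : Z, dist x y ≤ D := fun x y =>
    dist_le_diam_of_mem isBounded_of_compactSpace (mem_univ _) (mem_univ _)
  set σ := min (min σ₁ σ₂) (min σ₃ (1 / 2)) with hσ
  have hσpos : 0 < σ := by
    simp only [hσ, lt_min_iff]
    exact ⟨⟨hσ₁, hσ₂⟩, hσ₃, by norm_num⟩
  have h1 : σ ≤ σ₁ := (min_le_left _ _).trans (min_le_left _ _)
  have h2 : σ ≤ σ₂ := (min_le_left _ _).trans (min_le_right _ _)
  have h3 : σ ≤ σ₃ := (min_le_right _ _).trans (min_le_left _ _)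
  have h4 : σ ≤ 1 / 2 := (min_le_right _ _).trans (min_le_right _ _)
  set r := min (c₁ / 8) (min (τ / 2) (σ * D / 8)) with hr
  have hrpos : 0 < r := by
    simp only [hr, lt_min_iff]
    exact ⟨by linarith, by linarith, by positivity⟩
  have hr1 : r ≤ c₁ / 8 := min_le_left _ _
  have hr2 : r ≤ τ / 2 := (min_le_right _ _).trans (min_le_left _ _)
  have hr3 : r ≤ σ * D / 8 := (min_le_right _ _).trans (min_le_right _ _)
  refine ⟨r, hrpos, fun t ht => ?_⟩
  have htc := K.cont t ht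
  -- the set of good radii
  set A : Set ℝ := {s | 0 < s ∧ ∃ b : Z, μ.real univ / 2 < μ.real {x | dist (t x) b < s}} with hA
  obtain ⟨ρ, hρ, hfin⟩ := fin H K ht
  have hAlow : ∀ s ∈ A, ρ ≤ s := by
    rintro s ⟨-, b, hb⟩
    by_contra hs
    push Not at hs
    have h5 : μ.real {x | dist (t x) b < s} ≤ μ.real {x | dist (t x) b < ρ} :=
      measureReal_mono (fun x hx => lt_trans hx hs)
    have h6 := hfin b
    linarith
  have hAne : A.Nonempty := by
    have hne : Nonempty Z := by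
      by_contra h
      rw [not_nonempty_iff] at h
      rw [univ_eq_empty_iff.2 h] at hpos
      simp at hpos
    obtain ⟨b⟩ := hne
    refine ⟨D + 1, by linarith, b, ?_⟩
    have : {x | dist (t x) b < D + 1} = univ := by
      ext x
      simp only [mem_ofPred_eq, mem_univ, iff_true]
      linarith [hle (t x) b]
    rw [this]
    linarith
  have hAbdd : BddBelow A := ⟨ρ, hAlow⟩
  have hsinf : ρ ≤ sInf A := le_csInf hAne hAlow
  obtain ⟨s, hsA, hs⟩ := exists_lt_of_csInf_lt hAne (show sInf A < 2 * sInf A by linarith)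
  obtain ⟨hspos, b, hb⟩ := hsA
  have hsmall : ∀ a : Z, μ.real {x | dist (t x) a < s / 2} ≤ μ.real univ / 2 := by
    intro a
    by_contra h
    push Not at h
    have := csInf_le hAbdd (show s / 2 ∈ A from ⟨by linarith, a, h⟩)
    linarith
  by_cases hcase : σ * D / 4 ≤ s
  · refine ⟨id, K.id_mem, fun a => ?_⟩
    refine le_trans (measureReal_mono fun x hx => ?_) (hsmall a)
    have : dist (t x) a < r := hx
    show dist (t x) a < s / 2
    linarith
  · push Not at hcase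
    have hsD : s < D / 2 := by nlinarith
    obtain ⟨y, z, g, hy, hz, hg⟩ := zoom_exists H K.grp b hspos hsD
    have hg' := hg
    have hσs : s ≤ σ * dist b z := by
      have : σ * (D / 2) ≤ σ * dist b z := mul_le_mul_of_nonneg_left hz hσpos.le
      linarith
    have hbz : 0 ≤ dist b z := dist_nonneg
    have hs1 : dist b y ≤ σ₁ * dist b z := by
      rw [hy]; exact hσs.trans (mul_le_mul_of_nonneg_right h1 hbz)
    have hs2 : dist b y ≤ σ₂ * dist b z := by
      rw [hy]; exact hσs.trans (mul_le_mul_of_nonneg_right h2 hbz)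
    have hs3 : dist b y ≤ σ₃ * dist b z := by
      rw [hy]; exact hσs.trans (mul_le_mul_of_nonneg_right h3 hbz)
    have z1 := hz1 g b y z hg hs1
    have z2 := hz2 g b y z hg hs2
    have z4 := hz4 g b y z hg hs3
    rw [hy] at z1 z2 z4
    refine ⟨g, hg.mem, fun a => ?_⟩
    have hgc : Continuous g := (G_qm K.grp hg.mem).2.2
    by_cases hap : dist a (g z) < c₁ - r
    · -- disjoint from the preimage of ball b s
      have hdis : Disjoint {x | dist (g (t x)) a < r} {x | dist (t x) b < s} := by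
        refine disjoint_left.2 fun x hx hx' => ?_
        have h7 : dist (g (t x)) a < r := hx
        have h8 : dist (t x) b < s := hx'
        have h9 := z1 (t x) (by rw [dist_comm]; linarith)
        have h10 := dist_triangle (g (t x)) a (g z)
        linarith
      have hm1 : MeasurableSet {x | dist (t x) b < s} :=
        (isOpen_lt (htc.dist continuous_const) continuous_const).measurableSet
      have h11 := measureReal_union (μ := μ) hdis hm1
      have h12 : μ.real ({x | dist (g (t x)) a < r} ∪ {x | dist (t x) b < s}) ≤ μ.real univ :=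
        measureReal_mono (subset_univ _)
      linarith
    · push Not at hap
      -- the preimage lies in a ball of radius s / 2
      have hfar : ∀ x, dist (g (t x)) a < r → dist b (t x) ≤ M₂ * s := by
        intro x hx
        refine z2 (t x) ?_
        have h10 := dist_triangle_left a (g z) (g (t x))
        linarith
      by_cases hem : ∃ x₁, dist (g (t x₁)) a < r
      · obtain ⟨x₁, hx₁⟩ := hem
        refine le_trans (measureReal_mono fun x hx => ?_) (hsmall (t x₁))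
        have hx' : dist (g (t x)) a < r := hx
        have h13 := z4 (t x) (t x₁) (hfar x hx') (hfar x₁ hx₁)
          (by have := dist_triangle_right (g (t x)) (g (t x₁)) a; linarith)
        show dist (t x) (t x₁) < s / 2
        linarith
      · have : {x | dist (g (t x)) a < r} = ∅ := by
          ext x
          simp only [mem_ofPred_eq, mem_empty_iff_false, iff_false]
          exact fun h => hem ⟨x, h⟩
        rw [this]
        simp only [measureReal_empty]
        linarith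


/-- The typical path statement for `u ∘ f`: a path image of definite size on which `u` is close to
the mean of `u ∘ f`. -/
theorem close_aux {S G : Set (Z → Z)} {δ₀ : ℝ} {θ₀ : ℝ → ℝ} (H : Sp Z μ Q) (K : Sgw Z μ S G δ₀ θ₀)
    {C : ℝ} (hC : ∀ v : Z → ℝ, Continuous v →
    (∃ᶠ k in atTop, Ek Q k univ v ≤ 1) → ∀ ε : ℝ, 0 < ε →
    ∃ A : Set Z, MeasurableSet A ∧ 7 / 8 * μ.real univ ≤ μ.real A ∧
      ∀ x ∈ A, ∀ y ∈ A, ∃ α : C(unitInterval, Z), dist x (α 0) ≤ ε ∧ dist y (α 1) ≤ ε ∧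
        ∀ s, |v (α s) - (∫ z, v z ∂μ) / μ.real univ| ≤ C)
    {r : ℝ} (hr : 0 < r) {f : Z → Z} (hf : f ∈ S)
    (hn : ∀ a : Z, μ.real {x | dist (f x) a < r} ≤ μ.real univ / 2) {u : Z → ℝ}
    (hu : u ∈ UU Q S) : ∃ E : Set Z, IsPI E ∧ r / 2 ≤ diam E ∧
      ∀ z ∈ E, |u z - (∫ x, u (f x) ∂μ) / μ.real univ| ≤ C := by
  have := finite_mu H
  have hpos := mass_pos H
  have hfc := K.cont f hf
  obtain ⟨ε, hε, hε'⟩ := Metric.uniformContinuous_iff.1
    (CompactSpace.uniformContinuous_of_continuous hfc) (r / 4) (by linarith)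
  obtain ⟨A, hAm, hA, hP⟩ := hC (u ∘ f) (hu.1.comp hfc) (hu.2 f hf) (ε / 2) (by linarith)
  have hAne : A.Nonempty := by
    by_contra h
    rw [not_nonempty_iff_eq_empty] at h
    rw [h] at hA
    simp at hA
    linarith
  obtain ⟨x, hx⟩ := hAne
  obtain ⟨y, hy, hxy⟩ : ∃ y ∈ A, r ≤ dist (f y) (f x) := by
    by_contra h
    push Not at h
    have h1 : μ.real A ≤ μ.real {y | dist (f y) (f x) < r} :=
      measureReal_mono (fun y hy => h y hy)
    have h2 := hn (f x)
    linarith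
  obtain ⟨α, h0, h1, hα⟩ := hP x hx y hy
  refine ⟨f '' range α, isPI_image hfc ⟨α, rfl⟩, ?_, ?_⟩
  · have hb : Bornology.IsBounded (f '' range α) :=
      ((isPI_compact ⟨α, rfl⟩).image hfc).isBounded
    have h2 : dist (f (α 0)) (f (α 1)) ≤ diam (f '' range α) :=
      dist_le_diam_of_mem hb ⟨_, ⟨0, rfl⟩, rfl⟩ ⟨_, ⟨1, rfl⟩, rfl⟩
    have h3 : dist (f x) (f (α 0)) < r / 4 := hε' (by linarith)
    have h4 : dist (f y) (f (α 1)) < r / 4 := hε' (by linarith)
    have h5 : dist (f y) (f x) ≤ dist (f y) (f (α 1)) + dist (f (α 1)) (f (α 0))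
        + dist (f (α 0)) (f x) := dist_triangle4 _ _ _ _
    rw [dist_comm (f (α 1)) (f (α 0)), dist_comm (f (α 0)) (f x)] at h5
    linarith
  · rintro z ⟨_, ⟨s, rfl⟩, rfl⟩
    exact hα s


theorem close {S G : Set (Z → Z)} {δ₀ : ℝ} {θ₀ : ℝ → ℝ} (H : Sp Z μ Q) (K : Sgw Z μ S G δ₀ θ₀) {r : ℝ} (hr : 0 < r) : ∃ C : ℝ, ∀ f ∈ S,
    (∀ a : Z, μ.real {x | dist (f x) a < r} ≤ μ.real univ / 2) → Near μ Q S f id C := by
  have := finite_mu H
  have hpos := mass_pos H
  obtain ⟨r₁, hr₁, hid⟩ := fin H K (K.sub K.id_mem)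
  obtain ⟨C₁, hC₁, hty⟩ := typ H
  obtain ⟨C₂, hC₂, hcap⟩ := capac H
  set D := diam (univ : Set Z) with hD
  have hDpos : 0 < D := H.hD
  set w := min (r / 2) (r₁ / 2) with hw
  have hwpos : 0 < w := lt_min (by linarith) (by linarith)
  obtain ⟨m, hm, hloew⟩ := H.loew (D / w) (div_pos hDpos hwpos)
  have hQ : 0 < Q := by linarith [H.hQ]
  -- the key comparison
  have key : ∀ u ∈ UU Q S, ∀ E F : Set Z, IsPI E → IsPI F → w ≤ diam E → w ≤ diam F → ∀ a b : ℝ,
      (∀ x ∈ E, u x ≤ a) → (∀ x ∈ F, b ≤ u x) → b - a ≤ (C₂ / m) ^ (1 / Q) := by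
    intro u hu E F hE hF hE' hF' a b ha hb
    by_cases hab : a < b
    · have hEc := isPI_compact hE
      have hFc := isPI_compact hF
      have hdis : Disjoint E F := by
        refine disjoint_left.2 fun x hx hx' => ?_
        have := ha x hx
        have := hb x hx'
        linarith
      have hEne : E.Nonempty := by obtain ⟨α, rfl⟩ := hE; exact ⟨_, ⟨0, rfl⟩⟩
      have hFne : F.Nonempty := by obtain ⟨α, rfl⟩ := hF; exact ⟨_, ⟨0, rfl⟩⟩
      obtain ⟨x, hx⟩ := hEne
      obtain ⟨y, hy⟩ := hFne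
      have hMd := hloew E F hE hF hdis (hwpos.trans_le hE') (hwpos.trans_le hF')
        ⟨x, hx, y, hy, by
          have h1 : dist x y ≤ D := dist_le_diam_of_mem isBounded_of_compactSpace
            (mem_univ _) (mem_univ _)
          have h2 : D / w * w ≤ D / w * min (diam E) (diam F) :=
            mul_le_mul_of_nonneg_left (le_min hE' hF') (div_pos hDpos hwpos).le
          rw [div_mul_cancel₀ _ hwpos.ne'] at h2
          linarith⟩
      have hcon := hcap u hu.1 (by simpa using hu.2 id (K.sub K.id_mem)) E F hEc hFc a b hab ha hb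
      have h3 : ENNReal.ofReal ((b - a) ^ Q * m) ≤ ENNReal.ofReal C₂ := by
        rw [ENNReal.ofReal_mul (Real.rpow_nonneg (by linarith) _)]
        exact (mul_le_mul_right hMd _).trans hcon
      have h4 : (b - a) ^ Q * m ≤ C₂ := (ENNReal.ofReal_le_ofReal_iff hC₂.le).1 h3
      have h5 : (b - a) ^ Q ≤ C₂ / m := (le_div_iff₀ hm).2 h4
      have h6 := Real.rpow_le_rpow (Real.rpow_nonneg (by linarith) _) h5
        (by positivity : (0:ℝ) ≤ 1 / Q)
      rwa [← Real.rpow_mul (by linarith), mul_one_div_cancel hQ.ne', Real.rpow_one] at h6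
    · have : 0 ≤ (C₂ / m) ^ (1 / Q) := Real.rpow_nonneg (div_pos hC₂ hm).le _
      linarith
  refine ⟨(2 * C₁ + (C₂ / m) ^ (1 / Q)) * μ.real univ, fun f hf hn u hu => ?_⟩
  obtain ⟨E, hE, hEd, hEu⟩ := close_aux H K hty hr hf hn hu
  obtain ⟨F, hF, hFd, hFu⟩ := close_aux H K hty hr₁ (K.sub K.id_mem) hid hu
  have hEw : w ≤ diam E := (min_le_left _ _).trans hEd
  have hFw : w ≤ diam F := (min_le_right _ _).trans hFd
  set v₁ := (∫ x, u (f x) ∂μ) / μ.real univ with hv₁
  set v₂ := (∫ x, u (id x) ∂μ) / μ.real univ with hv₂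
  have h1 : v₂ - v₁ ≤ 2 * C₁ + (C₂ / m) ^ (1 / Q) := by
    have := key u hu E F hE hF hEw hFw (v₁ + C₁) (v₂ - C₁)
      (fun x hx => by have := (abs_le.1 (hEu x hx)).2; linarith)
      (fun x hx => by have := (abs_le.1 (hFu x hx)).1; linarith)
    linarith
  have h2 : v₁ - v₂ ≤ 2 * C₁ + (C₂ / m) ^ (1 / Q) := by
    have := key u hu F E hF hE hFw hEw (v₂ + C₁) (v₁ - C₁)
      (fun x hx => by have := (abs_le.1 (hFu x hx)).2; linarith)
      (fun x hx => by have := (abs_le.1 (hEu x hx)).1; linarith)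
    linarith
  have e1 : (∫ x, u (f x) ∂μ) = v₁ * μ.real univ := by rw [hv₁, div_mul_cancel₀ _ hpos.ne']
  have e2 : (∫ x, u (id x) ∂μ) = v₂ * μ.real univ := by rw [hv₂, div_mul_cancel₀ _ hpos.ne']
  rw [e1, e2, ← sub_mul, abs_mul, abs_of_pos hpos]
  exact mul_le_mul_of_nonneg_right (abs_le.2 ⟨by linarith, h1 |> fun _ => by linarith⟩) hpos.le


theorem fit {S G : Set (Z → Z)} {δ₀ : ℝ} {θ₀ : ℝ → ℝ} (H : Sp Z μ Q) (K : Sgw Z μ S G δ₀ θ₀) : ∃ (v₁ v₂ : Z) (r : ℝ), 0 < r ∧
    ∀ Ω : Set Z, IsOpen Ω → Ω.Nonempty → (∃ g ∈ G, g '' closedBall v₁ r ⊆ Ω) ∨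
      ∃ g ∈ G, g '' closedBall v₂ r ⊆ Ω := by
  set D := diam (univ : Set Z) with hD
  have hDpos : 0 < D := H.hD
  -- two distinct points
  obtain ⟨v₁, v₂, hv⟩ : ∃ v₁ v₂ : Z, v₁ ≠ v₂ := by
    by_contra h
    push Not at h
    have hs : (univ : Set Z).Subsingleton := fun a _ b _ => h a b
    have := diam_subsingleton hs
    linarith
  have hd : 0 < dist v₁ v₂ := dist_pos.2 hv
  set κ := dist v₁ v₂ / 8 with hκ
  have hκpos : 0 < κ := by positivity
  obtain ⟨σ, hσ, M, hM, hz2⟩ := zoom2 K.grp hκpos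
  refine ⟨v₁, v₂, κ, hκpos, fun Ω hΩ ⟨q, hq⟩ => ?_⟩
  obtain ⟨τ, hτ, hball⟩ := Metric.isOpen_iff.1 hΩ q hq
  -- the scale
  set s := min (D / 4) (min (σ * D / 4) (τ / (M + 1) / 2)) with hs
  have hspos : 0 < s := by
    simp only [hs, lt_min_iff]
    exact ⟨by positivity, by positivity, by positivity⟩
  have h1 : s ≤ D / 4 := min_le_left _ _
  have h2 : s ≤ σ * D / 4 := (min_le_right _ _).trans (min_le_left _ _)
  have h3 : s ≤ τ / (M + 1) / 2 := (min_le_right _ _).trans (min_le_right _ _)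
  have hMs : M * s < τ := by
    have h4 : (M + 1) * s ≤ (M + 1) * (τ / (M + 1) / 2) := mul_le_mul_of_nonneg_left h3 (by linarith)
    have h5 : (M + 1) * (τ / (M + 1) / 2) = τ / 2 := by field_simp
    nlinarith
  obtain ⟨y, z, h, hy, hz, hh⟩ := zoom_exists H K.grp q hspos (by linarith)
  obtain ⟨h', hh', e1, e2⟩ := K.inv h hh.mem
  have hsz : dist q y ≤ σ * dist q z := by
    rw [hy]
    have : σ * (D / 2) ≤ σ * dist q z := mul_le_mul_of_nonneg_left hz hσ.le
    linarith
  have hz2' := hz2 h q y z hh hsz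
  rw [hy] at hz2'
  have main : ∀ v : Z, 4 * κ ≤ dist v (h z) → h' '' closedBall v κ ⊆ Ω := by
    rintro v hv _ ⟨w, hw, rfl⟩
    refine hball ?_
    rw [mem_ball, dist_comm]
    refine lt_of_le_of_lt (hz2' (h' w) ?_) hMs
    have e : h (h' w) = w := congrFun e1 w
    rw [e]
    have h6 := dist_triangle_left v (h z) w
    rw [mem_closedBall] at hw
    linarith
  by_cases hc : 4 * κ ≤ dist v₁ (h z)
  · exact Or.inl ⟨h', hh', main v₁ hc⟩
  · refine Or.inr ⟨h', hh', main v₂ ?_⟩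
    push Not at hc
    have h7 := dist_triangle_right v₁ v₂ (h z)
    have h8 : dist v₁ v₂ = 8 * κ := by rw [hκ]; ring
    linarith


end QSCoh.W
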