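import Pool.Agent.Lib.MP_cccab4_an.TM.W5
import Pool.Agent.Lib.MP_cccab4_an.TM.W6
import Pool.Agent.Lib.MP_cccab4_an.T12

/-!
# TM, W7: the packing argument (T12 for Sgw)
-/

open MeasureTheory Metric Set Filter Topology
open scoped ENNReal NNReal

namespace QSCoh.W

variable {Z : Type*} [MetricSpace Z] [CompactSpace Z] [MeasurableSpace Z] [BorelSpace Z]
  {μ : Measure Z} {Q : ℝ}

/-- Every element of the semigroup is onto. -/
theorem count {S G : Set (Z → Z)} {δ₀ : ℝ} {θ₀ : ℝ → ℝ} (H : Sp Z μ Q) (K : Sgw Z μ S G δ₀ θ₀) :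
    ∀ f ∈ S, Function.Surjective f := by
  classical
  intro f hf
  by_contra hns
  have := finite_mu H
  have hinj : ∀ g ∈ S, Function.Injective g := fun g hg => by
    obtain ⟨θ, -, h⟩ := K.qm g hg
    exact h.inj
  -- the complement of the range
  have hcl : IsClosed (range f) := (isCompact_range (K.cont f hf)).isClosed
  have hne : ((range f)ᶜ).Nonempty := by
    rw [Function.Surjective] at hns
    push Not at hns
    obtain ⟨b, hb⟩ := hns
    exact ⟨b, fun ⟨a, ha⟩ => hb a ha⟩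
  obtain ⟨v₁, v₂, r, hr, hfit⟩ := fit H K
  obtain ⟨v, g₀, hg₀, hg₀V⟩ : ∃ v, ∃ g₀ ∈ G, g₀ '' closedBall v r ⊆ (range f)ᶜ := by
    rcases hfit _ hcl.isOpen_compl hne with ⟨g, hg, h⟩ | ⟨g, hg, h⟩
    · exact ⟨v₁, g, hg, h⟩
    · exact ⟨v₂, g, hg, h⟩
  set V := closedBall v r with hV
  obtain ⟨r₁, hr₁, hnorm⟩ := norm H K
  obtain ⟨C₀, hC₀⟩ := close H K hr₁
  have hnear : ∀ t ∈ S, ∃ g ∈ G, Near μ Q S (g ∘ t) id C₀ := by
    intro t ht
    obtain ⟨g, hg, h⟩ := hnorm t ht
    exact ⟨g, hg, hC₀ (g ∘ t) (K.comp _ (K.sub hg) _ ht) h⟩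
  have hfinn : ∀ t ∈ S, ∃ a, Near μ Q S t id a := by
    intro t ht
    obtain ⟨r, hr, h⟩ := fin H K ht
    obtain ⟨C, hC⟩ := close H K hr
    exact ⟨C, hC t ht h⟩
  obtain ⟨a, ha⟩ := hfinn g₀ (K.sub hg₀)
  obtain ⟨b, hb⟩ := hfinn f hf
  have hgf : Near μ Q S g₀ f (a + b) := ha.trans hb.symm
  set n := a + b + C₀ with hn
  obtain ⟨c, hc, hcp⟩ := cprime H K v hr (n + C₀)
  let P : ℕ → Prop := fun m => ∃ t ∈ S, ∃ F : Fin m → Z → Z, (∀ i, F i ∈ S) ∧
    (∀ i j, i ≠ j → Disjoint (F i '' V) (F j '' V)) ∧ ∀ i, Near μ Q S (F i) t n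
  have hVc : IsCompact V := isClosed_closedBall.isCompact
  -- bound
  have hbound : ∀ m, P m → m ≤ ⌊μ.real univ / c⌋₊ := by
    rintro m ⟨t, ht, F, hFS, hFd, hFn⟩
    obtain ⟨g, hg, hgt⟩ := hnear t ht
    have hgS := K.sub hg
    have hgF : ∀ i, c ≤ μ.real ((g ∘ F i) '' V) := by
      intro i
      refine hcp _ (K.comp _ hgS _ (hFS i)) ?_
      exact ((hFn i).comp (K.cont g hgS) (fun f hf => K.comp _ hgS _ hf)).trans hgt
    have hdis : Pairwise (Function.onFun Disjoint fun i => (g ∘ F i) '' V) := by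
      intro i j hij
      show Disjoint ((g ∘ F i) '' V) ((g ∘ F j) '' V)
      rw [image_comp, image_comp]
      exact (disjoint_image_iff (hinj g hgS)).2 (hFd i j hij)
    have hmeas : ∀ i, MeasurableSet ((g ∘ F i) '' V) := fun i =>
      (hVc.image ((K.cont g hgS).comp (K.cont _ (hFS i)))).isClosed.measurableSet
    have hsum : ∑ i : Fin m, μ.real ((g ∘ F i) '' V) ≤ μ.real univ := by
      rw [← measureReal_iUnion_fintype hdis hmeas]
      exact measureReal_mono (subset_univ _)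
    have : (m : ℝ) * c ≤ μ.real univ := by
      calc (m : ℝ) * c = ∑ _i : Fin m, c := by simp
        _ ≤ _ := Finset.sum_le_sum fun i _ => hgF i
        _ ≤ _ := hsum
    exact Nat.le_floor ((le_div_iff₀ hc).2 this)
  have hP0 : P 0 := ⟨id, K.sub K.id_mem, fun i => i.elim0, fun i => i.elim0, fun i => i.elim0,
    fun i => i.elim0⟩
  -- maximal m
  obtain ⟨m, ⟨t, ht, F, hFS, hFd, hFn⟩, hmax⟩ : ∃ m, P m ∧ ∀ m', P m' → m' ≤ m :=
    ⟨Nat.findGreatest P ⌊μ.real univ / c⌋₊,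
      Nat.findGreatest_spec (P := P) (Nat.zero_le _) hP0,
      fun m' h => Nat.le_findGreatest (hbound m' h) h⟩
  obtain ⟨g, hg, hgt⟩ := hnear t ht
  have hgS := K.sub hg
  have hfg : f ∘ g ∈ S := K.comp _ hf _ hgS
  have hfgc : Continuous (f ∘ g) := K.cont _ hfg
  have hfgi : Function.Injective (f ∘ g) := hinj _ hfg
  have hnext : P (m + 1) := by
    refine ⟨(f ∘ g) ∘ t, K.comp _ hfg _ ht, Fin.cons g₀ (fun i => (f ∘ g) ∘ F i), ?_, ?_, ?_⟩
    · intro i
      refine Fin.cases ?_ (fun i => ?_) i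
      · exact K.sub hg₀
      · exact K.comp _ hfg _ (hFS i)
    · have h0 : ∀ i, Disjoint (g₀ '' V) (((f ∘ g) ∘ F i) '' V) := by
        intro i
        refine disjoint_left.2 ?_
        rintro x hx ⟨y, -, rfl⟩
        exact hg₀V hx ⟨g (F i y), rfl⟩
      intro i j
      refine Fin.cases ?_ (fun i => ?_) i <;> refine Fin.cases ?_ (fun j => ?_) j
      · intro h; exact absurd rfl h
      · intro _; simpa using h0 j
      · intro _; simpa using (h0 i).symm
      · intro h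
        have hij : i ≠ j := fun h' => h (by rw [h'])
        simp only [Fin.cons_succ]
        rw [image_comp, image_comp (f ∘ g)]
        exact (disjoint_image_iff hfgi).2 (hFd i j hij)
    · intro i
      refine Fin.cases ?_ (fun i => ?_) i
      · simp only [Fin.cons_zero]
        refine hgf.trans ?_
        have h1 : Near μ Q S (f ∘ id) (f ∘ (g ∘ t)) C₀ :=
          (hgt.symm).comp (K.cont f hf) (fun _ h => K.comp _ hf _ h)
        exact h1
      · simp only [Fin.cons_succ]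
        exact (hFn i).comp hfgc (fun _ h => K.comp _ hfg _ h)
  have := hmax _ hnext
  omega


end QSCoh.W
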